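import Mathlib
import Pool.Agent.KNL.LangDefs

/-! The explicit language of the quantitative bound: hash functions that are polynomials of low
degree in parities. -/

namespace Pool.Agent.KQL

open Pool.Agent.SemRO Pool.Agent.KNL

/-- first parameter `w`: the number of leading ones -/
def pW (y : List Bool) : ℕ := run y 0

/-- second parameter `K`: the number of ones after the first zero -/
def pK (y : List Bool) : ℕ := run y (pW y + 1)

/-- third parameter `s` -/
def pS (y : List Bool) : ℕ := run y (pW y + pK y + 2)

/-- the first position after the parameters -/
def off0 (y : List Bool) : ℕ := pW y + pK y + pS y + 3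

/-- length `n` of the vectors `x^b` -/
def pn (y : List Bool) : ℕ := (y.length - off0 y) / (8 * pK y * pW y)

/-- number `m` of hash bits -/
def pm (y : List Bool) : ℕ := pn y / pS y

/-- position of the `i`-th bit of the string `α_q` (of length `2 n`) -/
def posA (y : List Bool) (q i : ℕ) : ℕ := off0 y + q * (2 * pn y) + i

/-- position of the bit that tells whether the parity `q` occurs in the monomial `e` -/
def posE (y : List Bool) (e q : ℕ) : ℕ := off0 y + pW y * (2 * pn y) + e * pW y + q

/-- position of the coefficient of the monomial `e` in the `j`-th polynomial -/
def posC (y : List Bool) (j e : ℕ) : ℕ := off0 y + pW y * (2 * pn y) + pK y * pW y + j * pK y + e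

/-- position of the `i`-th bit of the vector `x^b` -/
def posX (y : List Bool) (b i : ℕ) : ℕ :=
  off0 y + pW y * (2 * pn y) + pK y * pW y + pm y * pK y + b * (pn y + pm y) + i

/-- position of the `j`-th bit of the prescribed hash value `s^b` -/
def posS (y : List Bool) (b j : ℕ) : ℕ := posX y b (pn y + j)

/-- the parity of the scalar product of `x^b` with the window of `α_q` starting at `j` -/
def par (y : List Bool) (b j q : ℕ) : ℕ :=
  (∑ i ∈ Finset.range (pn y), bit y (posA y q (i + j)) * bit y (posX y b i)) % 2

/-- the `j`-th hash bit of `x^b`: the value of the `j`-th polynomial over the field with two elements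
at the vector of the parities -/
def val (y : List Bool) (b j : ℕ) : ℕ :=
  ((Finset.range (pK y)).filter (fun e => bit y (posC y j e) = 1 ∧
    ∀ q < pW y, bit y (posE y e q) = 1 → par y b j q = 1)).card % 2

/-- **The language.** For every `b < 2 K w` the hash value of `x^b` is `s^b`. -/
def Lang (y : List Bool) : Prop :=
  ∀ b < 2 * pK y * pW y, ∀ j < pm y, val y b j = bit y (posS y b j)

end Pool.Agent.KQL
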