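import Pool.Agent.KNL.PTime
import Pool.Agent.KQL.LangDefs

/-! The language is decided in polynomial time. (Adapt `Pool/Agent/KNL/PTime.lean`, which does this for
an older language with the same toolkit `PF`, `PD` of `Pool/Agent/Lib/PolyTime/PF.lean`; `inP_of_pd`,
`pf_bit`, `pf_run`, `pd_imp` can be reused from there.) -/

namespace Pool.Agent.KQL

open Pool.Agent.PolyTime Pool.Agent.KNL

namespace PTimeAux

section
variable {α : Type} [Ctx α]

theorem pf_pW : PF (fun x (_ : α) => KQL.pW x) := pf_run (PF.const 0)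

theorem pf_pK : PF (fun x (_ : α) => KQL.pK x) := pf_run (pf_pW.add (PF.const 1))

theorem pf_pS : PF (fun x (_ : α) => KQL.pS x) :=
  pf_run ((pf_pW.add pf_pK).add (PF.const 2))

theorem pf_off0 : PF (fun x (_ : α) => KQL.off0 x) :=
  ((pf_pW.add pf_pK).add pf_pS).add (PF.const 3)

theorem pf_pn : PF (fun x (_ : α) => KQL.pn x) :=
  (PF.len.sub pf_off0).div (((PF.const 8).mul pf_pK).mul pf_pW)

theorem pf_pm : PF (fun x (_ : α) => KQL.pm x) := pf_pn.div pf_pS

theorem pf_posA {Q I : List Bool → α → ℕ} (hQ : PF Q) (hI : PF I) :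
    PF (fun x a => KQL.posA x (Q x a) (I x a)) :=
  (pf_off0.add (hQ.mul ((PF.const 2).mul pf_pn))).add hI

theorem pf_posE {E Q : List Bool → α → ℕ} (hE : PF E) (hQ : PF Q) :
    PF (fun x a => KQL.posE x (E x a) (Q x a)) :=
  ((pf_off0.add (pf_pW.mul ((PF.const 2).mul pf_pn))).add (hE.mul pf_pW)).add hQ

theorem pf_posC {J E : List Bool → α → ℕ} (hJ : PF J) (hE : PF E) :
    PF (fun x a => KQL.posC x (J x a) (E x a)) :=
  (((pf_off0.add (pf_pW.mul ((PF.const 2).mul pf_pn))).add (pf_pK.mul pf_pW)).add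
    (hJ.mul pf_pK)).add hE

theorem pf_posX {B I : List Bool → α → ℕ} (hB : PF B) (hI : PF I) :
    PF (fun x a => KQL.posX x (B x a) (I x a)) :=
  ((((pf_off0.add (pf_pW.mul ((PF.const 2).mul pf_pn))).add (pf_pK.mul pf_pW)).add
    (pf_pm.mul pf_pK)).add (hB.mul (pf_pn.add pf_pm))).add hI

theorem pf_posS {B J : List Bool → α → ℕ} (hB : PF B) (hJ : PF J) :
    PF (fun x a => KQL.posS x (B x a) (J x a)) := pf_posX hB (pf_pn.add hJ)

theorem pf_par {B J Q : List Bool → α → ℕ} (hB : PF B) (hJ : PF J) (hQ : PF Q) :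
    PF (fun x a => KQL.par x (B x a) (J x a) (Q x a)) := by
  have h : PF (fun (x : List Bool) (p : α × ℕ) =>
      bit x (KQL.posA x (Q x p.1) (p.2 + J x p.1)) * bit x (KQL.posX x (B x p.1) p.2)) :=
    (pf_bit (pf_posA hQ.fst (PF.snd.add hJ.fst))).mul (pf_bit (pf_posX hB.fst PF.snd))
  exact (PF.sum pf_pn h).mod (PF.const 2)

theorem pf_val {B J : List Bool → α → ℕ} (hB : PF B) (hJ : PF J) :
    PF (fun x a => KQL.val x (B x a) (J x a)) := by
  classical
  -- contexts: a, e, q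
  have h2 : PD (fun (x : List Bool) (p : (α × ℕ) × ℕ) =>
      (bit x (KQL.posE x p.1.2 p.2) = 1 → KQL.par x (B x p.1.1) (J x p.1.1) p.2 = 1)) :=
    pd_imp (PD.eq (pf_bit (pf_posE PF.snd.fst PF.snd)) (PF.const 1))
      (PD.eq (pf_par hB.fst.fst hJ.fst.fst PF.snd) (PF.const 1))
  have h1 : PD (fun (x : List Bool) (p : α × ℕ) => ∀ q < KQL.pW x,
      bit x (KQL.posE x p.2 q) = 1 → KQL.par x (B x p.1) (J x p.1) q = 1) :=
    PD.forall_lt (B := fun x _ => KQL.pW x) pf_pW h2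
  have h0 : PD (fun (x : List Bool) (p : α × ℕ) => bit x (KQL.posC x (J x p.1) p.2) = 1 ∧
      ∀ q < KQL.pW x, bit x (KQL.posE x p.2 q) = 1 → KQL.par x (B x p.1) (J x p.1) q = 1) :=
    (PD.eq (pf_bit (pf_posC hJ.fst PF.snd)) (PF.const 1)).and h1
  refine ((PF.count pf_pK h0).mod (PF.const 2)).congr fun x a => ?_
  unfold val
  congr 2

end

end PTimeAux

open PTimeAux in
theorem pd_lang : PD (fun (x : List Bool) (_ : Unit) => Pool.Agent.KQL.Lang x) := by
  -- contexts: b, j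
  have h2 : PD (fun (x : List Bool) (p : (Unit × ℕ) × ℕ) =>
      KQL.val x p.1.2 p.2 = bit x (KQL.posS x p.1.2 p.2)) :=
    PD.eq (pf_val PF.snd.fst PF.snd) (pf_bit (PTimeAux.pf_posS PF.snd.fst PF.snd))
  have h1 : PD (fun (x : List Bool) (p : Unit × ℕ) => ∀ j < KQL.pm x,
      KQL.val x p.2 j = bit x (KQL.posS x p.2 j)) :=
    PD.forall_lt (B := fun x _ => KQL.pm x) PTimeAux.pf_pm h2
  exact PD.forall_lt (B := fun x _ => 2 * KQL.pK x * KQL.pW x)
    (((PF.const 2).mul PTimeAux.pf_pK).mul PTimeAux.pf_pW) h1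

/-- **the language is in P** -/
theorem inP_lang : InP Pool.Agent.KQL.Lang := inP_of_pd pd_lang

end Pool.Agent.KQL
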