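import Mathlib
import Pool.Agent.SemRO.Core

/-! The hash function (shared definitions). -/

namespace Pool.Agent.KQL

open Pool.Agent.SemRO

/-- value (over the field with two elements) at `v` of the polynomial with the monomials `E e` and the
coefficients `c e` -/
def pv {w K : ℕ} (E : Fin K → Fin w → Bool) (c : Fin K → Bool) (v : Fin w → Bool) : Bool :=
  decide ((Finset.univ.filter fun e => c e = true ∧ ∀ q, E e q = true → v q = true).card % 2 = 1)

/-- parity of the scalar product of `x` with the window of `α q` that starts at `j` -/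
def hpr (n : ℕ) (α : ℕ → ℕ → Bool) (j q : ℕ) (x : ℕ → Bool) : ℕ :=
  (∑ i ∈ Finset.range n, (α q (i + j)).toNat * (x i).toNat) % 2

/-- the `j`-th hash bit of `x` -/
def hv (w K n : ℕ) (α E C : ℕ → ℕ → Bool) (j : ℕ) (x : ℕ → Bool) : ℕ :=
  ((Finset.range K).filter (fun e => C j e = true ∧
    ∀ q < w, E e q = true → hpr n α j q x = 1)).card % 2

/-- a vector as a function on the natural numbers -/
def xb {n : ℕ} (x : Fin n → Bool) (i : ℕ) : Bool := if h : i < n then x ⟨i, h⟩ else false

end Pool.Agent.KQL
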