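import Pool.Agent.KNL.Auto
import Pool.Agent.KNL.Compl
import Pool.Agent.KQL.LangDefs

/-! The complement of the language has small nondeterministic branching programs with at most `N`
tests. (The same construction as in `Pool/Agent/KNL/Compl.lean`, with the tool `auto_spec` of
`KNL/Auto.lean`.)

Program: guess `w, K, s, b, j` (each at most `N`), with `b < 2 K w`, `j < m`, where
`n = (N - (w + K + s + 3)) / (8 * K * w)`, `m = n / s`; then run the fixed list of queries
* read the first `w + K + s + 3` bits and check that they are `1^w 0 1^K 0 1^s 0`;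
* for each `e < K`: read `posC j e`; for each `q < w`: read `posE e q`, then for each `i < n` read the
  bit `posA q (i + j)` and the bit `posX b i`;
* read `posS b j` and accept iff it differs from the computed parity.
Number of tests: `w + K + s + 3 + K (1 + w (1 + 2 n)) + 1 ≤ N` because `n ≥ 1`. -/

namespace Pool.Agent.KQL

open Pool.Agent.SemRO Pool.Agent.KNL

namespace ComplAux

/-- state: (all checks passed, parity of the finished monomials, value of the current monomial,
bit of `posE`, current parity, last bit read) -/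
abbrev St := Bool × Bool × Bool × Bool × Bool × Bool

variable {I : Type}

/-- the value of the current monomial, the current parity included -/
def eff (st : St) : Bool := st.2.2.1 && (!st.2.2.2.1 || st.2.2.2.2.1)

/-- the parity of all monomials, the current one included -/
def tot (st : St) : Bool := xor st.2.1 (eff st)

/-- read `i` and check that it is `e` -/
def chk (i : I) (e : Bool) : Step St I := (i, fun st b => (st.1 && (b == e), st.2))

/-- finish the previous monomial, read the coefficient of the next one -/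
def ldC (i : I) : Step St I := (i, fun st b => (st.1, tot st, b, false, false, false))

/-- finish the previous parity, read the bit which tells whether the next one occurs -/
def ldE (i : I) : Step St I := (i, fun st b => (st.1, st.2.1, eff st, b, false, false))

/-- read `i` and store it -/
def ld (i : I) : Step St I :=
  (i, fun st b => (st.1, st.2.1, st.2.2.1, st.2.2.2.1, st.2.2.2.2.1, b))

/-- read `i` and add the product with the stored bit to the parity -/
def mulAdd (i : I) : Step St I :=
  (i, fun st b => (st.1, st.2.1, st.2.2.1, st.2.2.2.1,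
    xor st.2.2.2.2.1 (st.2.2.2.2.2 && b), st.2.2.2.2.2))

/-- read `i` and check that it differs from the total parity -/
def chkNe (i : I) : Step St I := (i, fun st b => (st.1 && (b != tot st), st.2))

lemma exec_chk (y : I → Bool) (f : ℕ → I) (e : ℕ → Bool) (l : List ℕ) (st : St) :
    exec y (l.map (fun i => chk (f i) (e i))) st =
      (st.1 && decide (∀ i ∈ l, y (f i) = e i), st.2) := by
  induction l generalizing st with
  | nil => simp
  | cons a l ih =>
    rw [List.map_cons, exec_cons, ih]
    simp only [chk, List.forall_mem_cons, Bool.decide_and, Bool.and_assoc, Prod.mk.injEq, and_true]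
    congr 1

lemma xor_parity (a b : ℕ) :
    xor (decide (a % 2 = 1)) (decide (b % 2 = 1)) = decide ((a + b) % 2 = 1) := by
  rcases Nat.mod_two_eq_zero_or_one a with h | h <;>
  rcases Nat.mod_two_eq_zero_or_one b with h' | h' <;>
  simp [Nat.add_mod, h, h']

/-- the scalar product -/
def dot (a x : ℕ → I) (l : List ℕ) : List (Step St I) :=
  l.flatMap (fun i => [ld (a i), mulAdd (x i)])

lemma dot_cons (a x : ℕ → I) (c : ℕ) (l : List ℕ) :
    dot a x (c :: l) = ld (a c) :: mulAdd (x c) :: dot a x l := by simp [dot]

/-- the scalar product as a number -/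
def sp (y : I → Bool) (a x : ℕ → I) (l : List ℕ) : ℕ :=
  (l.map (fun i => (y (a i)).toNat * (y (x i)).toNat)).sum

lemma exec_dot (y : I → Bool) (a x : ℕ → I) (l : List ℕ) (st : St) :
    ∃ b, exec y (dot a x l) st = (st.1, st.2.1, st.2.2.1, st.2.2.2.1, xor st.2.2.2.2.1
      (decide (sp y a x l % 2 = 1)), b) := by
  induction l generalizing st with
  | nil => exact ⟨st.2.2.2.2.2, by simp [dot, sp]⟩
  | cons c l ih =>
    rw [dot_cons, exec_cons, exec_cons]
    obtain ⟨b, hb⟩ := ih ((mulAdd (x c)).2 ((ld (a c)).2 st (y (ld (a c)).1)) (y (mulAdd (x c)).1))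
    refine ⟨b, ?_⟩
    rw [hb]
    have h1 : sp y a x (c :: l) = (y (a c)).toNat * (y (x c)).toNat + sp y a x l := by
      simp [sp]
    have h2 : (y (a c) && y (x c)) = decide (((y (a c)).toNat * (y (x c)).toNat) % 2 = 1) := by
      cases y (a c) <;> cases y (x c) <;> rfl
    rw [h1, ← xor_parity, ← h2]
    simp only [mulAdd, ld, Bool.xor_assoc]

/-- the factors of a monomial -/
def blockQ (pe : ℕ → I) (a : ℕ → ℕ → I) (x : ℕ → I) (l Q : List ℕ) : List (Step St I) :=
  Q.flatMap (fun q => ldE (pe q) :: dot (a q) x l)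

lemma blockQ_cons (pe : ℕ → I) (a : ℕ → ℕ → I) (x : ℕ → I) (l : List ℕ) (c : ℕ) (Q : List ℕ) :
    blockQ pe a x l (c :: Q) = ldE (pe c) :: (dot (a c) x l ++ blockQ pe a x l Q) := by
  simp [blockQ]

lemma exec_blockQ (y : I → Bool) (pe : ℕ → I) (a : ℕ → ℕ → I) (x : ℕ → I) (l Q : List ℕ)
    (st : St) : (exec y (blockQ pe a x l Q) st).1 = st.1 ∧
      (exec y (blockQ pe a x l Q) st).2.1 = st.2.1 ∧
      eff (exec y (blockQ pe a x l Q) st) =
        (eff st && decide (∀ q ∈ Q, y (pe q) = true → sp y (a q) x l % 2 = 1)) := by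
  induction Q generalizing st with
  | nil => simp [blockQ]
  | cons c Q ih =>
    rw [blockQ_cons, exec_cons, exec_append]
    obtain ⟨b, hb⟩ := exec_dot y (a c) x l ((ldE (pe c)).2 st (y (ldE (pe c)).1))
    rw [hb]
    obtain ⟨h1, h2, h3⟩ := ih (((ldE (pe c)).2 st (y (ldE (pe c)).1)).1,
      ((ldE (pe c)).2 st (y (ldE (pe c)).1)).2.1, ((ldE (pe c)).2 st (y (ldE (pe c)).1)).2.2.1,
      ((ldE (pe c)).2 st (y (ldE (pe c)).1)).2.2.2.1,
      xor ((ldE (pe c)).2 st (y (ldE (pe c)).1)).2.2.2.2.1
      (decide (sp y (a c) x l % 2 = 1)), b)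
    refine ⟨h1, h2, ?_⟩
    rw [h3]
    simp only [ldE, List.forall_mem_cons, Bool.decide_and, Bool.false_xor]
    rw [← Bool.and_assoc]
    congr 1
    unfold eff
    cases y (pe c) <;> simp

/-- the monomials -/
def blockE (pc : ℕ → I) (pe : ℕ → ℕ → I) (a : ℕ → ℕ → I) (x : ℕ → I) (l Q E : List ℕ) :
    List (Step St I) :=
  E.flatMap (fun e => ldC (pc e) :: blockQ (pe e) a x l Q)

lemma blockE_cons (pc : ℕ → I) (pe : ℕ → ℕ → I) (a : ℕ → ℕ → I) (x : ℕ → I) (l Q : List ℕ)
    (c : ℕ) (E : List ℕ) : blockE pc pe a x l Q (c :: E) =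
      ldC (pc c) :: (blockQ (pe c) a x l Q ++ blockE pc pe a x l Q E) := by
  simp [blockE]

/-- the value of a monomial -/
def mon (y : I → Bool) (pc : ℕ → I) (pe : ℕ → ℕ → I) (a : ℕ → ℕ → I) (x : ℕ → I)
    (l Q : List ℕ) (e : ℕ) : Bool :=
  y (pc e) && decide (∀ q ∈ Q, y (pe e q) = true → sp y (a q) x l % 2 = 1)

lemma exec_blockE (y : I → Bool) (pc : ℕ → I) (pe : ℕ → ℕ → I) (a : ℕ → ℕ → I) (x : ℕ → I)
    (l Q E : List ℕ) (st : St) : (exec y (blockE pc pe a x l Q E) st).1 = st.1 ∧
      tot (exec y (blockE pc pe a x l Q E) st) =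
        xor (tot st) (decide ((E.map (fun e => (mon y pc pe a x l Q e).toNat)).sum % 2 = 1)) := by
  induction E generalizing st with
  | nil => simp [blockE]
  | cons c E ih =>
    rw [blockE_cons, exec_cons, exec_append]
    obtain ⟨g1, g2, g3⟩ := exec_blockQ y (pe c) a x l Q ((ldC (pc c)).2 st (y (ldC (pc c)).1))
    obtain ⟨h1, h2⟩ := ih (exec y (blockQ (pe c) a x l Q) ((ldC (pc c)).2 st (y (ldC (pc c)).1)))
    rw [h1, h2, g1]
    refine ⟨rfl, ?_⟩
    have h3 : tot (exec y (blockQ (pe c) a x l Q) ((ldC (pc c)).2 st (y (ldC (pc c)).1))) =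
        xor (tot st) (mon y pc pe a x l Q c) := by
      unfold tot
      rw [g2, g3]
      have h4 : eff ((ldC (pc c)).2 st (y (ldC (pc c)).1)) = y (pc c) := by
        simp [eff, ldC]
      rw [h4]
      rfl
    rw [h3, Bool.xor_assoc]
    congr 1
    rw [List.map_cons, List.sum_cons, ← xor_parity]
    congr 1
    cases mon y pc pe a x l Q c <;> rfl

lemma length_dot (a x : ℕ → I) (l : List ℕ) : (dot a x l).length = 2 * l.length := by
  induction l with
  | nil => rfl
  | cons c l ih =>
    rw [dot_cons]; simp [ih]; ring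

lemma length_blockQ (pe : ℕ → I) (a : ℕ → ℕ → I) (x : ℕ → I) (l Q : List ℕ) :
    (blockQ pe a x l Q).length = Q.length * (2 * l.length + 1) := by
  induction Q with
  | nil => simp [blockQ]
  | cons c Q ih =>
    rw [blockQ_cons, List.length_cons, List.length_append, ih, length_dot, List.length_cons]
    ring

lemma length_blockE (pc : ℕ → I) (pe : ℕ → ℕ → I) (a : ℕ → ℕ → I) (x : ℕ → I)
    (l Q E : List ℕ) : (blockE pc pe a x l Q E).length =
      E.length * (Q.length * (2 * l.length + 1) + 1) := by
  induction E with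
  | nil => simp [blockE]
  | cons c E ih =>
    rw [blockE_cons, List.length_cons, List.length_append, ih, length_blockQ, List.length_cons]
    ring

/-! ### the program -/

/-- a guess of `w, K, s, b, j` -/
abbrev Guess (N : ℕ) := Fin (N + 1) × Fin (N + 1) × Fin (N + 1) × Fin (N + 1) × Fin (N + 1)

/-- the length `n` -/
def gn (N w K s : ℕ) : ℕ := (N - (w + K + s + 3)) / (8 * K * w)

/-- the guess makes sense -/
def Valid (N w K s b j : ℕ) : Prop := b < 2 * K * w ∧ j < gn N w K s / s

instance (N w K s b j : ℕ) : Decidable (Valid N w K s b j) := by unfold Valid; infer_instance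

/-- the list of steps for the guess `w, K, s, b, j` -/
def prog {N : ℕ} (hN : 0 < N) (w K s b j : ℕ) : List (Step St (Fin N)) :=
  (List.range (w + K + s + 3)).map (fun i => chk (ix hN i)
      (decide (i ≠ w ∧ i ≠ w + 1 + K ∧ i ≠ w + K + 2 + s))) ++
    (blockE (fun e => ix hN (w + K + s + 3 + w * (2 * gn N w K s) + K * w + j * K + e))
      (fun e q => ix hN (w + K + s + 3 + w * (2 * gn N w K s) + e * w + q))
      (fun q i => ix hN (w + K + s + 3 + q * (2 * gn N w K s) + (i + j)))
      (fun i => ix hN (w + K + s + 3 + w * (2 * gn N w K s) + K * w + gn N w K s / s * K +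
        b * (gn N w K s + gn N w K s / s) + i)) (List.range (gn N w K s)) (List.range w)
      (List.range K) ++
    [chkNe (ix hN (w + K + s + 3 + w * (2 * gn N w K s) + K * w + gn N w K s / s * K +
        b * (gn N w K s + gn N w K s / s) + (gn N w K s + j)))])

lemma valid_bound {N w K s b j : ℕ} (h : Valid N w K s b j) :
    0 < w ∧ 0 < K ∧ 0 < s ∧ 0 < gn N w K s ∧ gn N w K s / s ≤ gn N w K s ∧
      w + K + s + 3 + 8 * (K * w * gn N w K s) ≤ N := by
  obtain ⟨h1, h3⟩ := h
  have hw : 0 < w := by
    rcases Nat.eq_zero_or_pos w with h | h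
    · rw [h] at h1; omega
    · exact h
  have hK : 0 < K := by
    rcases Nat.eq_zero_or_pos K with h | h
    · rw [h] at h1; omega
    · exact h
  have hm : 0 < gn N w K s / s := by omega
  have hs : 0 < s := by
    rcases Nat.eq_zero_or_pos s with h | h
    · rw [h, Nat.div_zero] at hm; omega
    · exact h
  have hn : 0 < gn N w K s := by
    rcases Nat.eq_zero_or_pos (gn N w K s) with h | h
    · rw [h, Nat.zero_div] at hm; omega
    · exact h
  refine ⟨hw, hK, hs, hn, Nat.div_le_self _ _, ?_⟩
  have h4 : gn N w K s * (8 * K * w) ≤ N - (w + K + s + 3) := Nat.div_mul_le_self _ _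
  have h5 : 0 < gn N w K s * (8 * K * w) := by positivity
  have h6 : gn N w K s * (8 * K * w) = 8 * (K * w * gn N w K s) := by ring
  omega

lemma length_prog {N : ℕ} (hN : 0 < N) {w K s b j : ℕ} (h : Valid N w K s b j) :
    (prog hN w K s b j).length ≤ N := by
  obtain ⟨hw, hK, hs, hn, hm, hb⟩ := valid_bound h
  simp only [prog, List.length_append, List.length_map, List.length_range, length_blockE,
    List.length_cons, List.length_nil]
  set n := gn N w K s
  have h1 : K * (w * (2 * n + 1) + 1) = 2 * (K * w * n) + K * w + K := by ring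
  have h2 : K * w ≤ K * w * n := Nat.le_mul_of_pos_right _ hn
  have h3 : K ≤ K * w := Nat.le_mul_of_pos_right _ hw
  omega

/-- the value of the `j`-th polynomial, with explicit parameters -/
def gval (W : List Bool) (w K s n b j : ℕ) : ℕ :=
  ((Finset.range K).filter (fun e =>
    bit W (w + K + s + 3 + w * (2 * n) + K * w + j * K + e) = 1 ∧
    ∀ q < w, bit W (w + K + s + 3 + w * (2 * n) + e * w + q) = 1 →
      (∑ i ∈ Finset.range n, bit W (w + K + s + 3 + q * (2 * n) + (i + j)) *
        bit W (w + K + s + 3 + w * (2 * n) + K * w + n / s * K + b * (n + n / s) + i)) % 2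
        = 1)).card % 2

lemma exec_prog {N : ℕ} (hN : 0 < N) {w K s b j : ℕ} (h : Valid N w K s b j)
    (y : Fin N → Bool) :
    (exec y (prog hN w K s b j) (true, false, false, false, false, false)).1 = true ↔
      ((∀ i < w + K + s + 3, (List.ofFn y).getD i false =
        decide (i ≠ w ∧ i ≠ w + 1 + K ∧ i ≠ w + K + 2 + s)) ∧
      gval (List.ofFn y) w K s (gn N w K s) b j ≠
      bit (List.ofFn y) (w + K + s + 3 + w * (2 * gn N w K s) + K * w + gn N w K s / s * K +
          b * (gn N w K s + gn N w K s / s) + (gn N w K s + j))) := by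
  obtain ⟨hw, hK, hs, hn, hm, hb⟩ := valid_bound h
  obtain ⟨vb, vj⟩ := h
  unfold prog
  set n := gn N w K s with hnd
  set m := n / s with hmd
  have hg : ∀ p < N, (List.ofFn y).getD p false = y (ix hN p) := by
    intro p hp
    rw [List.getD_eq_getElem _ _ (by simpa using hp)]
    simp only [List.getElem_ofFn]
    congr 1
    apply Fin.ext
    simp [ix, Nat.mod_eq_of_lt hp]
  have hbit : ∀ p < N, bit (List.ofFn y) p = (y (ix hN p)).toNat := by
    intro p hp; unfold bit; rw [hg p hp]
  -- bounds of the positions
  have e0 : K * w ≤ K * w * n := Nat.le_mul_of_pos_right _ hn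
  have e0' : w * n ≤ K * w * n := by
    rw [mul_assoc]; exact Nat.le_mul_of_pos_left _ hK
  have e1 : ∀ q < w, q * (2 * n) + 2 * n ≤ 2 * (w * n) := by
    intro q hq
    have : (q + 1) * (2 * n) ≤ w * (2 * n) := Nat.mul_le_mul_right _ hq
    calc q * (2 * n) + 2 * n = (q + 1) * (2 * n) := by ring
      _ ≤ w * (2 * n) := this
      _ = 2 * (w * n) := by ring
  have e2 : w * (2 * n) = 2 * (w * n) := by ring
  have e3 : m * K ≤ K * w * n := by
    calc m * K ≤ n * K := Nat.mul_le_mul_right _ hm
      _ = K * 1 * n := by ring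
      _ ≤ K * w * n := Nat.mul_le_mul_right _ (Nat.mul_le_mul_left _ hw)
  have e4 : b * (n + m) + (n + m) ≤ 4 * (K * w * n) := by
    have : (b + 1) * (n + m) ≤ (2 * K * w) * (2 * n) := Nat.mul_le_mul vb (by omega)
    calc b * (n + m) + (n + m) = (b + 1) * (n + m) := by ring
      _ ≤ (2 * K * w) * (2 * n) := this
      _ = 4 * (K * w * n) := by ring
  have e5 : ∀ e < K, j * K + e < m * K := by
    intro e he
    have : (j + 1) * K ≤ m * K := Nat.mul_le_mul_right _ vj
    have h' : (j + 1) * K = j * K + K := by ring
    omega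
  have e6 : ∀ e < K, ∀ q < w, e * w + q < K * w := by
    intro e he q hq
    have : (e + 1) * w ≤ K * w := Nat.mul_le_mul_right _ he
    have h' : (e + 1) * w = e * w + w := by ring
    omega
  have hpar : ∀ q < w, sp y (fun i => ix hN (w + K + s + 3 + q * (2 * n) + (i + j)))
      (fun i => ix hN (w + K + s + 3 + w * (2 * n) + K * w + m * K + b * (n + m) + i))
      (List.range n) =
      ∑ i ∈ Finset.range n, bit (List.ofFn y) (w + K + s + 3 + q * (2 * n) + (i + j)) *
        bit (List.ofFn y) (w + K + s + 3 + w * (2 * n) + K * w + m * K + b * (n + m) + i) := by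
    intro q hq
    have := e1 q hq
    unfold sp
    rw [← List.sum_toFinset _ List.nodup_range]
    simp only [List.toFinset_range]
    apply Finset.sum_congr rfl
    intro i hi
    have hi' := Finset.mem_range.mp hi
    rw [hbit _ (by omega), hbit _ (by omega)]
  rw [exec_append, exec_append]
  obtain ⟨c1, c2⟩ := exec_blockE y
    (fun e => ix hN (w + K + s + 3 + w * (2 * n) + K * w + j * K + e))
    (fun e q => ix hN (w + K + s + 3 + w * (2 * n) + e * w + q))
    (fun q i => ix hN (w + K + s + 3 + q * (2 * n) + (i + j)))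
    (fun i => ix hN (w + K + s + 3 + w * (2 * n) + K * w + m * K + b * (n + m) + i))
    (List.range n) (List.range w) (List.range K)
    (exec y ((List.range (w + K + s + 3)).map (fun i => chk (ix hN i)
      (decide (i ≠ w ∧ i ≠ w + 1 + K ∧ i ≠ w + K + 2 + s))))
      (true, false, false, false, false, false))
  have hval : ((List.range K).map (fun e => (mon y
      (fun e => ix hN (w + K + s + 3 + w * (2 * n) + K * w + j * K + e))
      (fun e q => ix hN (w + K + s + 3 + w * (2 * n) + e * w + q))
      (fun q i => ix hN (w + K + s + 3 + q * (2 * n) + (i + j)))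
      (fun i => ix hN (w + K + s + 3 + w * (2 * n) + K * w + m * K + b * (n + m) + i))
      (List.range n) (List.range w) e).toNat)).sum % 2 = gval (List.ofFn y) w K s n b j := by
    unfold gval
    rw [← hmd, Finset.card_filter, ← List.sum_toFinset _ List.nodup_range]
    simp only [List.toFinset_range]
    congr 1
    apply Finset.sum_congr rfl
    intro e he
    have he' := Finset.mem_range.mp he
    have b1 := e5 e he'
    have h1 : (bit (List.ofFn y) (w + K + s + 3 + w * (2 * n) + K * w + j * K + e) = 1 ∧
        ∀ q < w, bit (List.ofFn y) (w + K + s + 3 + w * (2 * n) + e * w + q) = 1 →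
      (∑ i ∈ Finset.range n, bit (List.ofFn y) (w + K + s + 3 + q * (2 * n) + (i + j)) *
        bit (List.ofFn y) (w + K + s + 3 + w * (2 * n) + K * w + m * K + b * (n + m) + i)) % 2
        = 1) ↔ mon y
      (fun e => ix hN (w + K + s + 3 + w * (2 * n) + K * w + j * K + e))
      (fun e q => ix hN (w + K + s + 3 + w * (2 * n) + e * w + q))
      (fun q i => ix hN (w + K + s + 3 + q * (2 * n) + (i + j)))
      (fun i => ix hN (w + K + s + 3 + w * (2 * n) + K * w + m * K + b * (n + m) + i))
      (List.range n) (List.range w) e = true := by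
      unfold mon
      rw [Bool.and_eq_true, decide_eq_true_eq, bit_eq_one_iff, hg _ (by omega)]
      refine and_congr Iff.rfl ?_
      constructor
      · intro h q hq hq1
        have hq' := List.mem_range.mp hq
        have b2 := e6 e he' q hq'
        rw [hpar q hq']
        refine h q hq' ?_
        rw [bit_eq_one_iff, hg _ (by omega)]
        exact hq1
      · intro h q hq hq1
        have b2 := e6 e he' q hq
        rw [← hpar q hq]
        refine h q (List.mem_range.mpr hq) ?_
        rw [bit_eq_one_iff, hg _ (by omega)] at hq1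
        exact hq1
    by_cases h2 : mon y
      (fun e => ix hN (w + K + s + 3 + w * (2 * n) + K * w + j * K + e))
      (fun e q => ix hN (w + K + s + 3 + w * (2 * n) + e * w + q))
      (fun q i => ix hN (w + K + s + 3 + q * (2 * n) + (i + j)))
      (fun i => ix hN (w + K + s + 3 + w * (2 * n) + K * w + m * K + b * (n + m) + i))
      (List.range n) (List.range w) e = true
    · rw [if_pos (h1.mpr h2), h2]
      rfl
    · rw [if_neg (fun h => h2 (h1.mp h)), Bool.eq_false_iff.mpr h2]
      rfl
  rw [hval] at c2
  rw [exec_cons, exec_nil]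
  simp only [chkNe, Bool.and_eq_true, bne_iff_ne, ne_eq]
  rw [c1, c2, exec_chk]
  have hg2 : gval (List.ofFn y) w K s n b j = 0 ∨ gval (List.ofFn y) w K s n b j = 1 := by
    unfold gval
    exact Nat.mod_two_eq_zero_or_one _
  have hlast := hbit (w + K + s + 3 + w * (2 * n) + K * w + m * K + b * (n + m) + (n + j))
    (by omega)
  rw [hlast]
  simp only [Bool.true_and, decide_eq_true_eq, List.mem_range]
  refine and_congr ?_ ?_
  · constructor
    · intro h i hi
      rw [hg i (by omega)]; exact h i hi
    · intro h i hi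
      rw [← hg i (by omega)]; exact h i hi
  · have ht' : ∀ X : Bool, tot ((X, (false, false, false, false, false)) : St) = false := by
      intro X; simp [tot, eff]
    rw [ht', Bool.false_xor]
    rcases hg2 with h0 | h0 <;> rw [h0] <;>
    cases y (ix hN (w + K + s + 3 + w * (2 * n) + K * w + m * K + b * (n + m) + (n + j))) <;>
    simp

/-- the steps of a guess (none if the guess is not valid) -/
def progC {N : ℕ} (hN : 0 < N) (c : Guess N) : List (Step St (Fin N)) :=
  if Valid N c.1 c.2.1 c.2.2.1 c.2.2.2.1 c.2.2.2.2 then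
    prog hN c.1 c.2.1 c.2.2.1 c.2.2.2.1 c.2.2.2.2 else []

/-- the guess is valid and all checks are passed -/
def goodC {N : ℕ} (c : Guess N) (st : St) : Prop :=
  Valid N c.1 c.2.1 c.2.2.1 c.2.2.2.1 c.2.2.2.2 ∧ st.1 = true

lemma length_progC {N : ℕ} (hN : 0 < N) (c : Guess N) : (progC hN c).length ≤ N := by
  unfold progC
  split_ifs with h
  · exact length_prog hN h
  · simp

lemma val_eq_gval (W : List Bool) (b j : ℕ) :
    val W b j = gval W (pW W) (pK W) (pS W) (pn W) b j := by
  unfold val gval par posC posE posA posX pm off0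
  congr!

lemma not_lang_iff {N : ℕ} (hN : 0 < N) (y : Fin N → Bool) :
    ¬ Pool.Agent.KQL.Lang (List.ofFn y) ↔ ∃ c : Guess N,
      goodC c (exec y (progC hN c) (true, false, false, false, false, false)) := by
  set W := List.ofFn y with hw
  have hlen : W.length = N := by simp [hw]
  constructor
  · intro h
    unfold Pool.Agent.KQL.Lang at h
    push Not at h
    obtain ⟨b, hb, j, hj, hne⟩ := h
    have hgn : gn N (pW W) (pK W) (pS W) = pn W := by
      unfold gn pn off0; rw [hlen]
    have hval : Valid N (pW W) (pK W) (pS W) b j := by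
      refine ⟨hb, ?_⟩
      rw [hgn]; exact hj
    obtain ⟨h1, h2, h3, h4, h5, hbd⟩ := valid_bound hval
    have q1 : pK W * pW W ≤ pK W * pW W * gn N (pW W) (pK W) (pS W) :=
      Nat.le_mul_of_pos_right _ h4
    have q2 : gn N (pW W) (pK W) (pS W) ≤ pK W * pW W * gn N (pW W) (pK W) (pS W) :=
      Nat.le_mul_of_pos_left _ (Nat.mul_pos h2 h1)
    have q3 : 2 * pK W * pW W = 2 * (pK W * pW W) := by ring
    have q4 := hval.1
    have q5 := hval.2
    refine ⟨(⟨pW W, by omega⟩, ⟨pK W, by omega⟩, ⟨pS W, by omega⟩, ⟨b, by omega⟩,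
      ⟨j, by omega⟩), ?_⟩
    refine ⟨hval, ?_⟩
    unfold progC
    rw [if_pos hval]
    rw [exec_prog hN hval y]
    obtain ⟨t1, t2⟩ := run_spec W 0
    obtain ⟨k1, k2⟩ := run_spec W (pW W + 1)
    obtain ⟨s1, s2⟩ := run_spec W (pW W + pK W + 2)
    change (∀ i < pW W, _) at t1
    change pW W < W.length → bit W (0 + pW W) ≠ 1 at t2
    change (∀ i < pK W, _) at k1
    change pK W < W.length → bit W (pW W + 1 + pK W) ≠ 1 at k2
    change (∀ i < pS W, _) at s1
    change pS W < W.length → bit W (pW W + pK W + 2 + pS W) ≠ 1 at s2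
    have t2' := t2 (by omega)
    have k2' := k2 (by omega)
    have s2' := s2 (by omega)
    rw [zero_add] at t2'
    refine ⟨?_, ?_⟩
    · intro i hi
      rcases lt_trichotomy i (pW W) with h | h | h
      · have := t1 i h
        rw [zero_add, bit_eq_one_iff] at this
        rw [this]; symm
        rw [decide_eq_true_eq]; omega
      · subst h
        rw [bit_ne_one_iff] at t2'
        rw [t2']; symm
        rw [decide_eq_false_iff_not]; omega
      · rcases lt_trichotomy i (pW W + 1 + pK W) with h' | h' | h'
        · obtain ⟨k, rfl⟩ : ∃ k, i = pW W + 1 + k := ⟨i - (pW W + 1), by omega⟩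
          have := k1 k (by omega)
          rw [bit_eq_one_iff] at this
          rw [this]; symm
          rw [decide_eq_true_eq]; omega
        · rw [h']
          rw [bit_ne_one_iff] at k2'
          rw [k2']; symm
          rw [decide_eq_false_iff_not]; omega
        · obtain ⟨k, rfl⟩ : ∃ k, i = pW W + pK W + 2 + k := ⟨i - (pW W + pK W + 2), by omega⟩
          rcases Nat.lt_or_ge k (pS W) with h'' | h''
          · have := s1 k h''
            rw [bit_eq_one_iff] at this
            rw [this]; symm
            rw [decide_eq_true_eq]; omega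
          · have h3' : k = pS W := by omega
            subst h3'
            rw [bit_ne_one_iff] at s2'
            rw [s2']; symm
            rw [decide_eq_false_iff_not]; omega
    · rw [hgn, ← val_eq_gval]
      exact hne
  · rintro ⟨⟨w, K, s, b, j⟩, hval, hacc⟩ hL
    simp only at hval
    unfold progC at hacc
    simp only [if_pos hval] at hacc
    rw [exec_prog hN hval y] at hacc
    obtain ⟨h1, h2, h3, h4, h5, hbd⟩ := valid_bound hval
    obtain ⟨a1, a2⟩ := hacc
    have eW : pW W = w := by
      apply run_unique W 0 w (by rw [hlen]; omega)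
      · intro i hi
        rw [zero_add, bit_eq_one_iff, a1 i (by omega), decide_eq_true_eq]; omega
      · rw [zero_add, bit_ne_one_iff, a1 w (by omega), decide_eq_false_iff_not]; omega
    have eK : pK W = K := by
      unfold pK
      rw [eW]
      apply run_unique W _ K (by rw [hlen]; omega)
      · intro i hi
        rw [bit_eq_one_iff, a1 _ (by omega), decide_eq_true_eq]; omega
      · rw [bit_ne_one_iff, a1 _ (by omega), decide_eq_false_iff_not]; omega
    have eS : pS W = s := by
      unfold pS
      rw [eW, eK]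
      apply run_unique W _ s (by rw [hlen]; omega)
      · intro i hi
        rw [bit_eq_one_iff, a1 _ (by omega), decide_eq_true_eq]; omega
      · rw [bit_ne_one_iff, a1 _ (by omega), decide_eq_false_iff_not]; omega
    have hgn : pn W = gn N w K s := by
      unfold gn pn off0; rw [hlen, eW, eK, eS]
    apply a2
    have := hL b (by rw [eW, eK]; exact hval.1) j (by unfold pm; rw [hgn, eS]; exact hval.2)
    rw [val_eq_gval] at this
    unfold posS posX pm off0 at this
    rw [hgn, eW, eK, eS] at this
    exact this

end ComplAux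

/-- The complement of the language has nondeterministic branching programs with at most
`(N + 2)^12` nodes in which every accepting walk makes at most `N` tests. -/
theorem compl (N : ℕ) : ∃ (V : Type) (_ : Fintype V) (P : NBP V (Fin N)),
    Fintype.card V ≤ (N + 2) ^ 12 ∧ P.Computes (fun y => ¬ Pool.Agent.KQL.Lang (List.ofFn y)) ∧
    ∀ y l, P.Path y P.src P.acc l → l.length ≤ N := by
  rcases Nat.eq_zero_or_pos N with rfl | hN
  · obtain ⟨h1, h2⟩ := auto_spec (C := Empty) (S := Unit) (I := Fin 0) 0 (fun _ => []) ()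
      (fun _ _ => False) (fun _ => le_rfl)
    refine ⟨AV Empty Unit 0, inferInstance, _, ?_, ?_, fun y l h => h2 y l h⟩
    · simp
    · intro y
      rw [← h1 y]
      constructor
      · intro h
        exact absurd (fun b hb => absurd hb (by simp [pW, run])) h
      · rintro ⟨c, _⟩
        exact c.elim
  · obtain ⟨h1, h2⟩ := auto_spec (C := ComplAux.Guess N) (S := ComplAux.St) (I := Fin N) N (ComplAux.progC hN)
      (true, false, false, false, false, false) ComplAux.goodC (ComplAux.length_progC hN)
    refine ⟨AV (ComplAux.Guess N) ComplAux.St N, inferInstance, _, ?_, ?_, fun y l h => h2 y l h⟩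
    · have e : Fintype.card (AV (ComplAux.Guess N) ComplAux.St N) = 64 * (N + 1) ^ 6 + 2 := by
        simp only [Fintype.card_option, Fintype.card_prod, Fintype.card_fin, Fintype.card_bool]
        ring
      rw [e]
      have h3 : (N + 1) ^ 6 ≤ (N + 2) ^ 6 := Nat.pow_le_pow_left (by omega) _
      have h4 : 3 ^ 6 ≤ (N + 2) ^ 6 := Nat.pow_le_pow_left (by omega) _
      have h5 : 1 ≤ (N + 2) ^ 6 := Nat.one_le_pow _ _ (by omega)
      have h6 : (N + 2) ^ 12 = (N + 2) ^ 6 * (N + 2) ^ 6 := by rw [← pow_add]
      have h7 : 3 ^ 6 * (N + 2) ^ 6 ≤ (N + 2) ^ 6 * (N + 2) ^ 6 := Nat.mul_le_mul_right _ h4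
      omega
    · intro y
      rw [← h1 y]
      exact ComplAux.not_lang_iff hN y

end Pool.Agent.KQL
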