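import Pool.Agent.KQL.Compl
import Pool.Agent.KNL.ComplS

/-! The complement of the language: programs with a stack that never use the stack. -/

namespace Pool.Agent.KQL

open Pool.Agent.SemRO Pool.Agent.KNL

/-- The complement of the language has nondeterministic programs that do not use the stack, with at
most `(N + 2) ^ 12` nodes, in which every accepting walk makes at most `N` tests. -/
theorem compl_stack (N : ℕ) : ∃ (V : Type) (_ : Fintype V) (P : SBP V Empty (Fin N)),
    Fintype.card V ≤ (N + 2) ^ 12 ∧
    (∀ y, (∃ l, P.AccWalk y l) ↔ ¬ Pool.Agent.KQL.Lang (List.ofFn y)) ∧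
    ∀ y l, P.AccWalk y l → l.length ≤ N := by
  obtain ⟨V, iV, P, h1, h2, h3⟩ := compl N
  refine ⟨V, iV, toStack P, h1, fun y => ?_, fun y l h => ?_⟩
  · exact (exists_congr fun l => acc_toStack).trans (h2 y).symm
  · exact h3 y l (acc_toStack.1 h)

end Pool.Agent.KQL
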