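import Pool.Agent.KQL.Params

/-! The final form of the lower bound: time `N (log (N / S)) ^ δ`. -/

namespace Pool.Agent.KQL

open Pool.Agent.SemRO Pool.Agent.KNL

/-- **Time and size.** -/
theorem time_of_quant (h : ∃ c : ℕ, ∀ k : ℕ, 2 ≤ k → ∀ N : ℕ, 2 ^ (k ^ c) ≤ N →
    ∃ A : Finset (Fin N → Bool), A.Nonempty ∧
      (∀ y ∈ A, Pool.Agent.KQL.Lang (List.ofFn y)) ∧
      ∀ (V Γ : Type) [Fintype V] (P : SBP V Γ (Fin N)),
        (Fintype.card V : ℝ) ≤ (2 : ℝ) ^ ((N : ℝ) / 2 ^ (k ^ c)) →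
        (∀ y l, P.AccWalk y l → Pool.Agent.KQL.Lang (List.ofFn y)) →
        ∀ S ⊆ A, (∀ y ∈ S, ∃ l, P.AccWalk y l ∧ l.length ≤ k * N) →
          (S.card : ℝ) ≤ (2 : ℝ) ^ (-((N : ℝ) / 2 ^ (k ^ c))) * A.card) :
    ∃ δ x0 : ℝ, 0 < δ ∧ 1 ≤ x0 ∧ ∀ (N S : ℕ), 1 ≤ S → x0 * S ≤ N →
      ∀ (V Γ : Type) [Fintype V] (P : SBP V Γ (Fin N)),
        Fintype.card V ≤ 2 ^ S →
        (∀ y, (∃ l, P.AccWalk y l) ↔ Pool.Agent.KQL.Lang (List.ofFn y)) →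
        ∀ T : ℕ, (∀ y, Pool.Agent.KQL.Lang (List.ofFn y) → ∃ l, P.AccWalk y l ∧ l.length ≤ T) →
          N * Real.log (N / S) ^ δ ≤ T := by
  obtain ⟨c, hc⟩ := h
  refine ⟨1 / (2 * (c + 1)), Real.exp (4 ^ (c + 1)), by positivity, ?_, ?_⟩
  · exact Real.one_le_exp (by positivity)
  intro N S hS hxN V Γ _ P hV hP T hT
  by_contra hcon
  push Not at hcon
  have hSr : (1 : ℝ) ≤ S := by exact_mod_cast hS
  have hS0 : (0 : ℝ) < S := by linarith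
  obtain ⟨x, hx⟩ : ∃ x : ℝ, x = N / S := ⟨_, rfl⟩
  rw [← hx] at hcon
  have hxx0 : Real.exp (4 ^ (c + 1)) ≤ x := by
    rw [hx, le_div_iff₀ hS0]; exact hxN
  have hx0 : 0 < x := lt_of_lt_of_le (Real.exp_pos _) hxx0
  obtain ⟨y, hy⟩ : ∃ y : ℝ, y = Real.log x := ⟨_, rfl⟩
  rw [← hy] at hcon
  have hy4 : (4 : ℝ) ^ (c + 1) ≤ y := by
    rw [hy, Real.le_log_iff_exp_le hx0]; exact hxx0
  have h4 : (4 : ℝ) ≤ 4 ^ (c + 1) := by
    calc (4 : ℝ) = 4 ^ 1 := by norm_num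
      _ ≤ 4 ^ (c + 1) := pow_le_pow_right₀ (by norm_num) (by omega)
  have hy1 : (1 : ℝ) < y := by linarith
  have hy0 : 0 ≤ y := by linarith
  obtain ⟨z, hz⟩ : ∃ z : ℝ, z = y ^ (1 / (2 * ((c : ℝ) + 1))) := ⟨_, rfl⟩
  rw [← hz] at hcon
  have hz1 : 1 < z := by
    rw [hz]
    exact Real.one_lt_rpow hy1 (by positivity)
  obtain ⟨k, hk⟩ : ∃ k, k = ⌈z⌉₊ := ⟨_, rfl⟩
  have hkz : z ≤ k := by rw [hk]; exact Nat.le_ceil _
  have hkz' : (k : ℝ) ≤ 2 * z := by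
    have := Nat.ceil_lt_add_one (show 0 ≤ z by linarith)
    rw [← hk] at this
    linarith
  have hk2 : 2 ≤ k := by
    have h1 : (1 : ℝ) < k := by linarith
    have h2 : 1 < k := by exact_mod_cast h1
    omega
  -- `k ^ (c + 1) ≤ y`
  have hzc : z ^ (c + 1) = Real.sqrt y := by
    rw [hz, ← Real.rpow_natCast, ← Real.rpow_mul hy0, Real.sqrt_eq_rpow]
    congr 1
    push_cast
    field_simp
  have hsq : (2 : ℝ) ^ (c + 1) ≤ Real.sqrt y := by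
    apply Real.le_sqrt_of_sq_le
    calc ((2 : ℝ) ^ (c + 1)) ^ 2 = 4 ^ (c + 1) := by rw [← pow_mul, mul_comm, pow_mul]; norm_num
      _ ≤ y := hy4
  have hkc : (k : ℝ) ^ (c + 1) ≤ y := by
    calc (k : ℝ) ^ (c + 1) ≤ (2 * z) ^ (c + 1) := pow_le_pow_left₀ (Nat.cast_nonneg _) hkz' _
      _ = 2 ^ (c + 1) * Real.sqrt y := by rw [mul_pow, hzc]
      _ ≤ Real.sqrt y * Real.sqrt y := mul_le_mul_of_nonneg_right hsq (Real.sqrt_nonneg _)
      _ = y := Real.mul_self_sqrt hy0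
  have hkc' : (k : ℝ) ^ c ≤ y := by
    refine le_trans (pow_le_pow_right₀ ?_ (by omega : c ≤ c + 1)) hkc
    have : (2 : ℝ) ≤ k := by exact_mod_cast hk2
    linarith
  have h2x : (2 : ℝ) ^ (k ^ c) ≤ x := by
    have h1 : (2 : ℝ) ^ (k ^ c) = Real.exp (Real.log 2 * ((k ^ c : ℕ) : ℝ)) := by
      rw [Real.exp_mul, Real.exp_log (by norm_num), Real.rpow_natCast]
    rw [h1, ← Real.le_log_iff_exp_le hx0, ← hy]
    push_cast
    have h2 : Real.log 2 * (k : ℝ) ^ c ≤ 1 * (k : ℝ) ^ c := by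
      apply mul_le_mul_of_nonneg_right _ (by positivity)
      have := Real.log_two_lt_d9
      linarith
    linarith
  have hxN' : x * S = N := by rw [hx]; field_simp
  have hNr : (2 : ℝ) ^ (k ^ c) * S ≤ N := by
    rw [← hxN']; exact mul_le_mul_of_nonneg_right h2x hS0.le
  have h2pos : (0 : ℝ) < 2 ^ (k ^ c) := by positivity
  have hN : 2 ^ (k ^ c) ≤ N := by
    have : (2 : ℝ) ^ (k ^ c) ≤ N := by
      calc (2 : ℝ) ^ (k ^ c) = 2 ^ (k ^ c) * 1 := by ring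
        _ ≤ 2 ^ (k ^ c) * S := mul_le_mul_of_nonneg_left hSr h2pos.le
        _ ≤ N := hNr
    exact_mod_cast this
  obtain ⟨A, hA, hAL, hA2⟩ := hc k hk2 N hN
  have hSN : (S : ℝ) ≤ N / 2 ^ (k ^ c) := by
    rw [le_div_iff₀ h2pos]; linarith
  have hVr : (Fintype.card V : ℝ) ≤ (2 : ℝ) ^ ((N : ℝ) / 2 ^ (k ^ c)) := by
    have h1 : (Fintype.card V : ℝ) ≤ (2 : ℝ) ^ (S : ℝ) := by
      rw [Real.rpow_natCast]; exact_mod_cast hV
    exact h1.trans (Real.rpow_le_rpow_of_exponent_le (by norm_num) hSN)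
  have hTk : T ≤ k * N := by
    have h1 : (T : ℝ) ≤ N * z := hcon.le
    have h2 : (N : ℝ) * z ≤ N * k := mul_le_mul_of_nonneg_left hkz (Nat.cast_nonneg _)
    have h3 : (T : ℝ) ≤ k * N := by linarith
    exact_mod_cast h3
  have h1 := hA2 V Γ P hVr (fun y l hy => (hP y).mp ⟨l, hy⟩) A (Finset.Subset.refl _) (fun y hy => by
    obtain ⟨l, hl, hlen⟩ := hT y (hAL y hy)
    exact ⟨l, hl, hlen.trans hTk⟩)
  have hAc : (0 : ℝ) < A.card := by exact_mod_cast Finset.card_pos.mpr hA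
  have h2 : (2 : ℝ) ^ (-((N : ℝ) / 2 ^ (k ^ c))) < 1 := by
    apply Real.rpow_lt_one_of_one_lt_of_neg (by norm_num)
    linarith
  nlinarith

end Pool.Agent.KQL
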