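import Pool.Agent.KNL.Hash
import Pool.Agent.KQL.HashDef

/-! Hash functions with few random bits whose level sets contain no rectangle of bounded size: random
polynomials of low degree in parities. -/

namespace Pool.Agent.KQL.Hash

open Finset Pool.Agent.SemRO Pool.Agent.KNL.Hash

variable {n : ℕ}

section Union

variable {w m K : ℕ}

/-- seeds of the hash functions -/
abbrev Seed (n w m K : ℕ) : Type := (Fin w → Fin (2 * n) → Bool) × (Fin m → Fin K → Bool)

lemma card_seed : Fintype.card (Seed n w m K) = 2 ^ (2 * n * w) * 2 ^ (K * m) := by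
  simp only [Seed, Fintype.card_prod, Fintype.card_pi, Fintype.card_bool, prod_const, card_univ,
    Fintype.card_fin]
  rw [← pow_mul, ← pow_mul]

/-- all points have the same hash value -/
def AllEq (E : Fin K → Fin w → Bool) (hm : m ≤ n) {ι : Type} (z : ι → Fin n → Bool) (c : Seed n w m K) : Prop :=
  ∀ j p q, pv E (c.2 j) (idx hm c.1 (z p) j) = pv E (c.2 j) (idx hm c.1 (z q) j)

/-- the polynomials are rarely constant on at most `D` points -/
def Interp (E : Fin K → Fin w → Bool) (D : ℕ) : Prop :=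
  ∀ (ι : Type) [Fintype ι] [Nonempty ι] (v : ι → Fin w → Bool), Function.Injective v →
    Fintype.card ι ≤ D → (((Finset.univ : Finset (Fin K → Bool)).filter
      fun c => ∀ p q, pv E c (v p) = pv E c (v q)).card : ℝ) ≤ 2 ^ K / 2 ^ (Fintype.card ι - 1)

variable {E : Fin K → Fin w → Bool} {D : ℕ}

open Classical in
lemma card_tables (hE : Interp E D) (hm : m ≤ n) {ι : Type} [Fintype ι] [Nonempty ι]
    (hD : Fintype.card ι ≤ D) (z : ι → Fin n → Bool)
    (α : Fin w → Fin (2 * n) → Bool) (a : ℕ) (ha : Fintype.card ι ^ 2 * a ≤ m)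
    (hα : ∀ p q, p ≠ q → (coll hm α (z p) (z q)).card < a) :
    ((univ.filter fun g : Fin m → Fin K → Bool =>
      ∀ j p q, pv E (g j) (idx hm α (z p) j) = pv E (g j) (idx hm α (z q) j)).card : ℝ) ≤
      2 ^ (K * m) / 2 ^ ((Fintype.card ι - 1) * (m - Fintype.card ι ^ 2 * a)) := by
  set T := Fintype.card ι with hT
  set B : Finset (Fin m) := ((univ : Finset (ι × ι)).filter fun p => p.1 ≠ p.2).biUnion
    fun p => coll hm α (z p.1) (z p.2) with hB
  have hBc : B.card ≤ T ^ 2 * a := by
    refine card_biUnion_le.trans ?_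
    calc ∑ p ∈ (univ : Finset (ι × ι)).filter (fun p => p.1 ≠ p.2),
          (coll hm α (z p.1) (z p.2)).card
        ≤ ∑ p ∈ (univ : Finset (ι × ι)).filter (fun p => p.1 ≠ p.2), a :=
          Finset.sum_le_sum fun p hp => (hα p.1 p.2 (mem_filter.1 hp).2).le
      _ ≤ ∑ _p ∈ (univ : Finset (ι × ι)), a := Finset.sum_le_sum_of_subset (filter_subset _ _)
      _ = T ^ 2 * a := by
          simp only [sum_const, card_univ, Fintype.card_prod, smul_eq_mul, ← hT]
          ring
  have h1 : (univ.filter fun g : Fin m → Fin K → Bool =>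
      ∀ j p q, pv E (g j) (idx hm α (z p) j) = pv E (g j) (idx hm α (z q) j)) =
      Fintype.piFinset fun j : Fin m => univ.filter fun h : Fin K → Bool =>
        ∀ p q, pv E h (idx hm α (z p) j) = pv E h (idx hm α (z q) j) := by
    ext g
    simp [Fintype.mem_piFinset]
  rw [h1, Fintype.card_piFinset]
  push_cast
  have h2 : ∀ j : Fin m, ((univ.filter fun h : Fin K → Bool =>
        ∀ p q, pv E h (idx hm α (z p) j) = pv E h (idx hm α (z q) j)).card : ℝ) ≤
      2 ^ K / (if j ∈ B then 1 else 2 ^ (T - 1)) := by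
    intro j
    by_cases hj : j ∈ B
    · rw [if_pos hj, div_one]
      have : (univ.filter fun h : Fin K → Bool =>
        ∀ p q, pv E h (idx hm α (z p) j) = pv E h (idx hm α (z q) j)).card ≤ 2 ^ K := by
        refine (card_le_univ _).trans ?_
        simp
      exact_mod_cast this
    · rw [if_neg hj]
      refine hE ι (fun p => idx hm α (z p) j) ?_ hD
      intro p q hpq
      by_contra hne
      apply hj
      rw [hB, mem_biUnion]
      exact ⟨(p, q), by simpa using hne, by simpa [coll] using hpq⟩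
  calc ∏ j : Fin m, ((univ.filter fun h : Fin K → Bool =>
        ∀ p q, pv E h (idx hm α (z p) j) = pv E h (idx hm α (z q) j)).card : ℝ)
      ≤ ∏ j : Fin m, ((2 : ℝ) ^ K / (if j ∈ B then 1 else 2 ^ (T - 1))) :=
        Finset.prod_le_prod (fun j _ => by positivity) fun j _ => h2 j
    _ = 2 ^ (K * m) / 2 ^ ((T - 1) * (m - B.card)) := by
        rw [Finset.prod_div_distrib, Finset.prod_const, card_univ, Fintype.card_fin, ← pow_mul]
        congr 1
        rw [Finset.prod_ite]
        simp only [prod_const_one, one_mul, prod_const]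
        rw [← pow_mul]
        congr 2
        have h4 := Finset.card_filter_add_card_filter_not (s := (univ : Finset (Fin m)))
          (fun v => v ∈ B)
        have h5 : (univ.filter fun v : Fin m => v ∈ B) = B := by ext; simp
        rw [h5, card_univ, Fintype.card_fin] at h4
        omega
    _ ≤ 2 ^ (K * m) / 2 ^ ((T - 1) * (m - T ^ 2 * a)) := by
        apply div_le_div_of_nonneg_left (by positivity) (by positivity)
        apply pow_le_pow_right₀ (by norm_num)
        exact Nat.mul_le_mul_left _ (by omega)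

open Classical in
lemma card_allEq (hE : Interp E D) (hm : m ≤ n) {ι : Type} [Fintype ι] [Nonempty ι]
    (hD : Fintype.card ι ≤ D) (z : ι → Fin n → Bool)
    (hz : Function.Injective z) (a : ℕ) (ha : Fintype.card ι ^ 2 * a ≤ m) :
    ((univ.filter fun c : Seed n w m K => AllEq E hm z c).card : ℝ) ≤
      (2 ^ (2 * n * w) * 2 ^ (K * m)) * ((Fintype.card ι : ℝ) ^ 2 * 2 ^ m / 2 ^ (w * a) +
        1 / 2 ^ ((Fintype.card ι - 1) * (m - Fintype.card ι ^ 2 * a))) := by
  set T := Fintype.card ι with hT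
  set bad : Finset (Fin w → Fin (2 * n) → Bool) := univ.filter fun α =>
    ∃ p q, p ≠ q ∧ a ≤ (coll hm α (z p) (z q)).card with hbad
  have hbadc : (bad.card : ℝ) ≤ (T : ℝ) ^ 2 * (2 ^ m * (2 ^ (2 * n * w) / 2 ^ (w * a))) := by
    have hsub : bad ⊆ ((univ : Finset (ι × ι)).filter fun p => p.1 ≠ p.2).biUnion
        (fun p => univ.filter fun α : Fin w → Fin (2 * n) → Bool =>
          a ≤ (coll hm α (z p.1) (z p.2)).card) := by
      intro α hα
      obtain ⟨p, q, hpq, h⟩ := (mem_filter.1 hα).2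
      rw [mem_biUnion]
      exact ⟨(p, q), by simpa using hpq, by simpa using h⟩
    have h1 : (bad.card : ℝ) ≤ ∑ p ∈ (univ : Finset (ι × ι)).filter (fun p => p.1 ≠ p.2),
        ((univ.filter fun α : Fin w → Fin (2 * n) → Bool =>
          a ≤ (coll hm α (z p.1) (z p.2)).card).card : ℝ) := by
      exact_mod_cast (card_le_card hsub).trans card_biUnion_le
    refine h1.trans ?_
    calc ∑ p ∈ (univ : Finset (ι × ι)).filter (fun p => p.1 ≠ p.2),
          ((univ.filter fun α : Fin w → Fin (2 * n) → Bool =>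
            a ≤ (coll hm α (z p.1) (z p.2)).card).card : ℝ)
        ≤ ∑ p ∈ (univ : Finset (ι × ι)).filter (fun p => p.1 ≠ p.2),
          (2 ^ m * (2 ^ (2 * n * w) / 2 ^ (w * a)) : ℝ) := by
          apply Finset.sum_le_sum
          intro p hp
          exact card_many_coll hm _ _ (fun h => (mem_filter.1 hp).2 (hz h)) a
      _ ≤ ∑ _p ∈ (univ : Finset (ι × ι)), (2 ^ m * (2 ^ (2 * n * w) / 2 ^ (w * a)) : ℝ) :=
          Finset.sum_le_sum_of_subset_of_nonneg (filter_subset _ _) fun _ _ _ => by positivity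
      _ = _ := by
          simp only [sum_const, card_univ, Fintype.card_prod, nsmul_eq_mul, ← hT]
          push_cast
          ring
  have h1 : (univ.filter fun c : Seed n w m K => AllEq E hm z c).card =
      ∑ α : Fin w → Fin (2 * n) → Bool, (univ.filter fun g : Fin m → Fin K → Bool =>
        ∀ j p q, pv E (g j) (idx hm α (z p) j) = pv E (g j) (idx hm α (z q) j)).card := by
    rw [← Finset.card_sigma]
    refine Finset.card_bij (fun c _ => ⟨c.1, c.2⟩) ?_ ?_ ?_
    · intro c hc
      simp only [mem_sigma, mem_univ, true_and, mem_filter]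
      exact (mem_filter.1 hc).2
    · intro c _ d _ h
      simp only [Sigma.mk.injEq] at h
      exact Prod.ext h.1 (eq_of_heq h.2)
    · intro c hc
      simp only [mem_sigma, mem_univ, true_and, mem_filter] at hc
      exact ⟨(c.1, c.2), by simpa [AllEq] using hc, rfl⟩
  rw [h1]
  push_cast
  have hle : ∀ α : Fin w → Fin (2 * n) → Bool,
      ((univ.filter fun g : Fin m → Fin K → Bool =>
        ∀ j p q, pv E (g j) (idx hm α (z p) j) = pv E (g j) (idx hm α (z q) j)).card : ℝ) ≤
      (if α ∈ bad then (2 : ℝ) ^ (K * m) else 0) +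
        2 ^ (K * m) / 2 ^ ((T - 1) * (m - T ^ 2 * a)) := by
    intro α
    by_cases hα : α ∈ bad
    · rw [if_pos hα]
      have h2 : (univ.filter fun g : Fin m → Fin K → Bool =>
        ∀ j p q, pv E (g j) (idx hm α (z p) j) = pv E (g j) (idx hm α (z q) j)).card ≤ 2 ^ (K * m) := by
        refine (card_le_univ _).trans ?_
        simp only [Fintype.card_pi, Fintype.card_bool, prod_const, card_univ, Fintype.card_fin]
        rw [← pow_mul]
      have h3 : ((univ.filter fun g : Fin m → Fin K → Bool =>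
        ∀ j p q, pv E (g j) (idx hm α (z p) j) = pv E (g j) (idx hm α (z q) j)).card : ℝ) ≤
          2 ^ (K * m) := by exact_mod_cast h2
      have h4 : (0 : ℝ) ≤ 2 ^ (K * m) / 2 ^ ((T - 1) * (m - T ^ 2 * a)) := by positivity
      linarith
    · rw [if_neg hα, zero_add]
      refine card_tables hE hm hD z α a ha ?_
      intro p q hpq
      by_contra hcon
      exact hα (by rw [hbad, mem_filter]; exact ⟨mem_univ _, p, q, hpq, not_lt.1 hcon⟩)
  calc ∑ α : Fin w → Fin (2 * n) → Bool,
        ((univ.filter fun g : Fin m → Fin K → Bool =>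
          ∀ j p q, pv E (g j) (idx hm α (z p) j) = pv E (g j) (idx hm α (z q) j)).card : ℝ)
      ≤ ∑ α : Fin w → Fin (2 * n) → Bool, ((if α ∈ bad then (2 : ℝ) ^ (K * m) else 0) +
        2 ^ (K * m) / 2 ^ ((T - 1) * (m - T ^ 2 * a))) := Finset.sum_le_sum fun α _ => hle α
    _ = bad.card * 2 ^ (K * m) +
        2 ^ (2 * n * w) * (2 ^ (K * m) / 2 ^ ((T - 1) * (m - T ^ 2 * a))) := by
        rw [Finset.sum_add_distrib, Finset.sum_ite_mem, univ_inter, sum_const, sum_const,
          nsmul_eq_mul, nsmul_eq_mul, card_univ]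
        simp only [Fintype.card_pi, Fintype.card_bool, prod_const, card_univ, Fintype.card_fin]
        rw [← pow_mul]
        push_cast
        ring
    _ ≤ (T : ℝ) ^ 2 * (2 ^ m * (2 ^ (2 * n * w) / 2 ^ (w * a))) * 2 ^ (K * m) +
        2 ^ (2 * n * w) * (2 ^ (K * m) / 2 ^ ((T - 1) * (m - T ^ 2 * a))) :=
        add_le_add (mul_le_mul_of_nonneg_right hbadc (by positivity)) le_rfl
    _ = _ := by ring

open Classical in
lemma exists_seed (hE : Interp E D) (hm : m ≤ n) {t : ℕ} (ht : 0 < t) (hD : t * t ≤ D) (a : ℕ) (ha : (t * t) ^ 2 * a ≤ m)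
    (h1 : n + n * t + 2 + (t * t) ^ 2 + m ≤ w * a)
    (h2 : n + n * t + 2 ≤ (t * t - 1) * (m - (t * t) ^ 2 * a)) :
    ∃ c : Seed n w m K, ∀ (A : Finset (Fin n)) (r : Fin t → Fin n → Bool), Dis A r →
      ¬ AllEq E hm (pt A r) c := by
  by_contra hcon
  push Not at hcon
  have : Nonempty (Fin t × Fin t) := ⟨(⟨0, ht⟩, ⟨0, ht⟩)⟩
  have hι : Fintype.card (Fin t × Fin t) = t * t := by simp
  have hcover : (univ : Finset (Seed n w m K)) ⊆
      ((univ : Finset (Finset (Fin n) × (Fin t → Fin n → Bool))).filter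
        fun p => Dis p.1 p.2).biUnion
        (fun p => univ.filter fun c : Seed n w m K => AllEq E hm (pt p.1 p.2) c) := by
    intro c _
    obtain ⟨A, r, hs, h⟩ := hcon c
    rw [mem_biUnion]
    exact ⟨(A, r), by simpa using hs, by simpa using h⟩
  set Q : ℝ := 2 ^ (2 * n * w) * 2 ^ (K * m) with hQ
  have hQpos : 0 < Q := by positivity
  have hone : ∀ p ∈ (univ : Finset (Finset (Fin n) × (Fin t → Fin n → Bool))).filter
      (fun p => Dis p.1 p.2), ((univ.filter fun c : Seed n w m K => AllEq E hm (pt p.1 p.2) c).card : ℝ)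
      ≤ Q * (2 / 2 ^ (n + n * t + 2)) := by
    intro p hp
    have h3 := card_allEq (w := w) hE hm (by rw [hι]; exact hD) (pt p.1 p.2) (pt_inj _ _ (mem_filter.1 hp).2) a
      (by rw [hι]; exact ha)
    refine h3.trans (mul_le_mul_of_nonneg_left ?_ hQpos.le)
    rw [hι]
    have h4 : ((t * t : ℕ) : ℝ) ^ 2 * 2 ^ m / 2 ^ (w * a) ≤ 1 / 2 ^ (n + n * t + 2) := by
      rw [div_le_div_iff₀ (by positivity) (by positivity), one_mul]
      have h5 : ((t * t : ℕ) : ℝ) ^ 2 ≤ 2 ^ ((t * t) ^ 2) := by
        have : (t * t) ^ 2 ≤ 2 ^ ((t * t) ^ 2) := (Nat.lt_two_pow_self).le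
        exact_mod_cast this
      calc ((t * t : ℕ) : ℝ) ^ 2 * 2 ^ m * 2 ^ (n + n * t + 2)
          ≤ 2 ^ ((t * t) ^ 2) * 2 ^ m * 2 ^ (n + n * t + 2) := by gcongr
        _ = 2 ^ (n + n * t + 2 + (t * t) ^ 2 + m) := by
            rw [← pow_add, ← pow_add]; congr 1; ring
        _ ≤ 2 ^ (w * a) := pow_le_pow_right₀ (by norm_num) h1
    have h6 : (1 : ℝ) / 2 ^ ((t * t - 1) * (m - (t * t) ^ 2 * a)) ≤ 1 / 2 ^ (n + n * t + 2) := by
      apply one_div_le_one_div_of_le (by positivity)
      exact pow_le_pow_right₀ (by norm_num) h2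
    calc _ ≤ (1 : ℝ) / 2 ^ (n + n * t + 2) + 1 / 2 ^ (n + n * t + 2) := add_le_add h4 h6
      _ = _ := by ring
  have hc := (card_le_card hcover).trans card_biUnion_le
  have hc' : Q ≤ ∑ p ∈ (univ : Finset (Finset (Fin n) × (Fin t → Fin n → Bool))).filter
      (fun p => Dis p.1 p.2),
        ((univ.filter fun c : Seed n w m K => AllEq E hm (pt p.1 p.2) c).card : ℝ) := by
    rw [card_univ, card_seed] at hc
    rw [hQ]
    exact_mod_cast hc
  have h7 : Q ≤ 2 ^ (n + n * t) * (Q * (2 / 2 ^ (n + n * t + 2))) := by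
    refine hc'.trans ((Finset.sum_le_sum hone).trans ?_)
    calc ∑ p ∈ (univ : Finset (Finset (Fin n) × (Fin t → Fin n → Bool))).filter
            (fun p => Dis p.1 p.2), Q * (2 / 2 ^ (n + n * t + 2))
        ≤ ∑ _p ∈ (univ : Finset (Finset (Fin n) × (Fin t → Fin n → Bool))),
            Q * (2 / 2 ^ (n + n * t + 2)) :=
          Finset.sum_le_sum_of_subset_of_nonneg (filter_subset _ _) fun _ _ _ => by positivity
      _ = _ := by
          simp only [sum_const, card_univ, Fintype.card_prod, Fintype.card_finset,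
            Fintype.card_fin, nsmul_eq_mul, Fintype.card_pi, Fintype.card_bool, prod_const]
          push_cast
          rw [← pow_mul, ← pow_add]
  have h8 : (2 : ℝ) ^ (n + n * t) * (Q * (2 / 2 ^ (n + n * t + 2))) = Q / 2 := by
    rw [pow_add _ (n + n * t) 2]
    field_simp
  rw [h8] at h7
  linarith

end Union


/-- **Hash functions without rectangles.** -/
theorem exists_hash_idx {s w K : ℕ} {E : Fin K → Fin w → Bool} {D : ℕ} (hs : 1 ≤ s)
    (hE : Interp E D) (hD : (8 * s + 2) * (8 * s + 2) ≤ D)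
    (hw : 8 * s * ((8 * s + 2) * (8 * s + 2)) ^ 2 * (8 * s + 5) ≤ w) {n : ℕ}
    (hn : 2 * ((8 * s + 2) * (8 * s + 2)) ^ 2 * s + ((8 * s + 2) * (8 * s + 2)) ^ 2 + 2 ≤ n) :
    ∃ (α : Fin w → Fin (2 * n) → Bool) (g : Fin (n / s) → Fin K → Bool),
      ∀ y : Fin (n / s) → Bool,
        RectFree {x : Fin n → Bool | ∀ j, pv E (g j) (idx (Nat.div_le_self n s) α x j) = y j}
          (8 * s + 2) := by
  set t : ℕ := 8 * s + 2 with ht
  set T2 : ℕ := (t * t) ^ 2 with hT2
  have hm : n / s ≤ n := Nat.div_le_self n s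
  set m : ℕ := n / s with hmdef
  have hT2pos : 0 < T2 := by positivity
  have hm1 : 2 * T2 ≤ m := by
    rw [hmdef, Nat.le_div_iff_mul_le hs]
    omega
  have hnm : n ≤ 2 * (m * s) := by
    have h1 : n < (m + 1) * s := by
      rw [hmdef]
      have := Nat.lt_div_mul_add (a := n) (show 0 < s by omega)
      linarith
    have h2 : s ≤ m * s := Nat.le_mul_of_pos_left s (by omega)
    nlinarith
  set a : ℕ := m / (2 * T2) with hadef
  have ha1 : 1 ≤ a := by
    rw [hadef]; exact (Nat.one_le_div_iff (by positivity)).2 hm1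
  have ha2 : T2 * a * 2 ≤ m := by
    have := Nat.div_mul_le_self m (2 * T2)
    rw [← hadef] at this
    linarith
  have ha3 : m ≤ 4 * (T2 * a) := by
    have h1 := Nat.lt_div_mul_add (a := m) (show 0 < 2 * T2 by positivity)
    rw [← hadef] at h1
    have h2 : T2 ≤ T2 * a := Nat.le_mul_of_pos_right T2 ha1
    nlinarith
  obtain ⟨c, hc⟩ := exists_seed (n := n) (w := w) (m := m) hE hm
    (t := t) (by omega) hD a (by rw [← hT2]; omega)
    (by
      rw [← hT2]
      have h1 : n ≤ 8 * s * (T2 * a) := by nlinarith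
      have h2 : n * (t + 3) ≤ 8 * s * (T2 * a) * (t + 3) := Nat.mul_le_mul_right _ h1
      have h3 : 2 + T2 ≤ n := by omega
      have h4 : 8 * s * T2 * (t + 3) * a ≤ w * a := by
        apply Nat.mul_le_mul_right
        have e : t + 3 = 8 * s + 5 := by omega
        rw [e]; exact hw
      nlinarith)
    (by
      rw [← hT2]
      have h1 : m ≤ 2 * (m - T2 * a) := by omega
      have h2 : (t * t - 1) * m ≤ 2 * ((t * t - 1) * (m - T2 * a)) := by
        calc (t * t - 1) * m ≤ (t * t - 1) * (2 * (m - T2 * a)) := Nat.mul_le_mul_left _ h1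
          _ = _ := by ring
      have h3 : 4 * s * (t + 1) + 4 ≤ t * t - 1 := by
        have : 4 * s * (t + 1) + 4 + 1 ≤ t * t := by rw [ht]; nlinarith
        omega
      have h4 : (4 * s * (t + 1) + 4) * m ≤ (t * t - 1) * m := Nat.mul_le_mul_right _ h3
      have h5 : 2 * (n + n * t + 2) ≤ (4 * s * (t + 1) + 4) * m := by
        have h6 : n * (t + 1) ≤ 2 * (m * s) * (t + 1) := Nat.mul_le_mul_right _ hnm
        nlinarith
      omega)
  refine ⟨c.1, c.2, fun y => ?_⟩
  intro A u v hu hv
  by_contra hcon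
  push Not at hcon
  let r : Fin t → Fin n → Bool := fun i => mix A (u i) (v i)
  have hdis : Dis A r := by
    intro i j hij
    obtain ⟨x, hx, hxx⟩ := hu i j hij
    obtain ⟨x', hx', hxx'⟩ := hv i j hij
    exact ⟨⟨x, hx, by simpa [r, mix, hx] using hxx⟩, ⟨x', hx', by simpa [r, mix, hx'] using hxx'⟩⟩
  apply hc A r hdis
  have hpt : ∀ p, pt A r p = mix A (u p.1) (v p.2) := by
    intro p
    funext x
    by_cases hx : x ∈ A <;> simp [pt, mix, hx, r]
  intro j p q
  have h1 := hcon p.1 p.2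
  have h2 := hcon q.1 q.2
  rw [← hpt] at h1 h2
  exact (h1 j).trans (h2 j).symm

end Pool.Agent.KQL.Hash

namespace Pool.Agent.KQL

open Pool.Agent.SemRO

/-- The hash functions, with everything indexed by natural numbers. -/
theorem exists_hash {s w K : ℕ} {E : Fin K → Fin w → Bool} {D : ℕ} (hs : 1 ≤ s)
    (hE : Hash.Interp E D) (hD : (8 * s + 2) * (8 * s + 2) ≤ D)
    (hw : 8 * s * ((8 * s + 2) * (8 * s + 2)) ^ 2 * (8 * s + 5) ≤ w) {n : ℕ}
    (hn : 2 * ((8 * s + 2) * (8 * s + 2)) ^ 2 * s + ((8 * s + 2) * (8 * s + 2)) ^ 2 + 2 ≤ n) :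
    ∃ (α E C : ℕ → ℕ → Bool), ∀ σ : ℕ → ℕ,
      RectFree {x : Fin n → Bool | ∀ j, j < n / s → hv w K n α E C j (xb x) = σ j} (8 * s + 2) := by
  obtain ⟨α, g, hF⟩ := Hash.exists_hash_idx hs hE hD hw hn
  have hm : n / s ≤ n := Nat.div_le_self n s
  refine ⟨fun l i => if h : l < w ∧ i < 2 * n then α ⟨l, h.1⟩ ⟨i, h.2⟩ else false,
    fun e q => if h : e < K ∧ q < w then E ⟨e, h.1⟩ ⟨q, h.2⟩ else false,
    fun j e => if h : j < n / s ∧ e < K then g ⟨j, h.1⟩ ⟨e, h.2⟩ else false, fun σ => ?_⟩
  set α' : ℕ → ℕ → Bool := fun l i => if h : l < w ∧ i < 2 * n then α ⟨l, h.1⟩ ⟨i, h.2⟩ else false with hα'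
  set E' : ℕ → ℕ → Bool := fun e q => if h : e < K ∧ q < w then E ⟨e, h.1⟩ ⟨q, h.2⟩ else false with hE'
  set C' : ℕ → ℕ → Bool := fun j e => if h : j < n / s ∧ e < K then g ⟨j, h.1⟩ ⟨e, h.2⟩ else false with hC'
  have hpr : ∀ (x : Fin n → Bool) (j : Fin (n / s)) (q : Fin w),
      hpr n α' j q (xb x) = 1 ↔ Pool.Agent.KNL.Hash.idx hm α x j q = true := by
    intro x j q
    unfold Pool.Agent.KQL.hpr Pool.Agent.KNL.Hash.idx
    rw [decide_eq_true_eq, Finset.sum_range]
    have : ∀ i : Fin n, (α' q (i + j)).toNat * (xb x i).toNat =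
        (if (α q ⟨i + j, by omega⟩ && x i) = true then 1 else 0) := by
      intro i
      have h1 : (i : ℕ) + j < 2 * n := by omega
      rw [hα']
      simp only [q.isLt, h1, and_self, dif_pos, Fin.eta]
      unfold xb
      rw [dif_pos i.isLt]
      cases α q ⟨i + j, h1⟩ <;> cases x i <;> simp
    rw [Finset.sum_congr rfl fun i _ => this i]
  have hval : ∀ (x : Fin n → Bool) (j : Fin (n / s)),
      hv w K n α' E' C' j (xb x) = (pv E (g j) (Pool.Agent.KNL.Hash.idx hm α x j)).toNat := by
    intro x j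
    unfold hv pv
    have h1 : ((Finset.range K).filter (fun e => C' j e = true ∧
        ∀ q < w, E' e q = true → Pool.Agent.KQL.hpr n α' j q (xb x) = 1)).card =
        (Finset.univ.filter fun e : Fin K => g j e = true ∧ ∀ q, E e q = true →
          Pool.Agent.KNL.Hash.idx hm α x j q = true).card := by
      symm
      refine Finset.card_bij (fun e _ => (e : ℕ)) ?_ ?_ ?_
      · intro e he
        obtain ⟨_, he1, he2⟩ := Finset.mem_filter.mp he
        rw [Finset.mem_filter, Finset.mem_range]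
        refine ⟨e.isLt, ?_, fun q hq hEq => ?_⟩
        · rw [hC']; simp only [j.isLt, e.isLt, and_self, dif_pos, Fin.eta]; exact he1
        · rw [hE'] at hEq
          simp only [e.isLt, hq, and_self, dif_pos, Fin.eta] at hEq
          exact (hpr x j ⟨q, hq⟩).mpr (he2 ⟨q, hq⟩ hEq)
      · intro e _ e' _ h
        exact Fin.ext h
      · intro e he
        obtain ⟨h0, he1, he2⟩ := Finset.mem_filter.mp he
        have heK : e < K := Finset.mem_range.mp h0
        refine ⟨⟨e, heK⟩, ?_, rfl⟩
        rw [Finset.mem_filter]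
        refine ⟨Finset.mem_univ _, ?_, fun q hq => ?_⟩
        · rw [hC'] at he1
          simp only [j.isLt, heK, and_self, dif_pos, Fin.eta] at he1
          exact he1
        · apply (hpr x j q).mp
          apply he2 q q.isLt
          rw [hE']
          simp only [heK, q.isLt, and_self, dif_pos, Fin.eta]
          exact hq
    rw [h1]
    rcases Nat.mod_two_eq_zero_or_one (Finset.univ.filter fun e : Fin K => g j e = true ∧
      ∀ q, E e q = true → Pool.Agent.KNL.Hash.idx hm α x j q = true).card with h | h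
    · rw [h]; rfl
    · rw [h]; rfl
  have hsub : {x : Fin n → Bool | ∀ j, j < n / s → hv w K n α' E' C' j (xb x) = σ j} ⊆
      {x : Fin n → Bool | ∀ j, pv E (g j) (Pool.Agent.KNL.Hash.idx hm α x j) = decide (σ j = 1)} := by
    intro x hx j
    have h1 := hx j j.isLt
    rw [hval] at h1
    rw [← h1]
    cases pv E (g j) (Pool.Agent.KNL.Hash.idx hm α x j) <;> simp
  intro A u v hu hv
  obtain ⟨i, j, hij⟩ := hF (fun j => decide (σ j = 1)) A u v hu hv
  exact ⟨i, j, fun h => hij (hsub h)⟩

end Pool.Agent.KQL
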