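import Pool.Agent.KQL.Word
import Pool.Agent.KNL.LowerS
import Pool.Agent.KQ.Sbp

/-! The lower bound for the language from the bound for one block, with explicit parameters. -/

namespace Pool.Agent.KQL

open Pool.Agent.SemRO Pool.Agent.KNL
open Pool.Agent.KQ (SbpB)

/-- starting position of block `b` -/
def bq (w K s n m b : ℕ) : ℕ := w + K + s + 3 + w * (2 * n) + K * w + m * K + b * (n + m)

/-- hash bit as a truth value -/
def hbool (w K n : ℕ) (α E C : ℕ → ℕ → Bool) (x : Fin n → Bool) (j : ℕ) : Bool :=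
  decide (hv w K n α E C j (xb x) = 1)

lemma hbool_toNat {w K n : ℕ} {α E C : ℕ → ℕ → Bool} (x : Fin n → Bool) (j : ℕ) :
    (hbool w K n α E C x j).toNat = hv w K n α E C j (xb x) := by
  unfold hbool
  have h : hv w K n α E C j (xb x) < 2 := Nat.mod_lt _ (by norm_num)
  rcases Nat.lt_or_ge (hv w K n α E C j (xb x)) 1 with h0 | h0
  · have : hv w K n α E C j (xb x) = 0 := by omega
    rw [this]; rfl
  · have : hv w K n α E C j (xb x) = 1 := by omega
    rw [this]; rfl

/-- hash values of a family of vectors -/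
def sq {T : ℕ} (w K n : ℕ) (α E C : ℕ → ℕ → Bool) (X : Fin T → Fin n → Bool) (b j : ℕ) : Bool :=
  if h : b < T then hbool w K n α E C (X ⟨b, h⟩) j else false

lemma sq_val {T w K n : ℕ} {α E C : ℕ → ℕ → Bool} (X : Fin T → Fin n → Bool) {b : ℕ} (hb : b < T)
    (j : ℕ) : sq w K n α E C X b j = hbool w K n α E C (X ⟨b, hb⟩) j := by
  unfold sq; rw [dif_pos hb]

lemma ext_xb {T n : ℕ} (X : Fin T → Fin n → Bool) {b : ℕ} (hb : b < T) :
    ext X b = xb (X ⟨b, hb⟩) := by
  funext i
  unfold ext xb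
  by_cases hi : i < n
  · rw [dif_pos ⟨hb, hi⟩, dif_pos hi]
  · rw [dif_neg (fun h => hi h.2), dif_neg hi]

variable {w K s n m N : ℕ} {α E C : ℕ → ℕ → Bool} {Sg : ℕ → ℕ → Bool}

/-- pasting a vector into block `b0` -/
lemma paste_wq (b0 : Fin (2 * K * w)) (X0 : Fin (2 * K * w) → Fin n → Bool) (x : Fin n → Bool) :
    paste (ob N n (bq w K s n m b0)) (fun p : Fin N => wd w K s n m α E C (ext X0) Sg p) x =
      fun p : Fin N => wd w K s n m α E C (ext (Function.update X0 b0 x)) Sg p := by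
  funext p
  by_cases hp : bq w K s n m b0 ≤ p ∧ (p : ℕ) - bq w K s n m b0 < n
  · rw [paste_some (a := ⟨p - bq w K s n m b0, hp.2⟩) (by unfold ob; rw [dif_pos hp])]
    have e : bq w K s n m b0 + (p - bq w K s n m b0) = p := by omega
    have h1 : wd w K s n m α E C (ext (Function.update X0 b0 x)) Sg
        (bq w K s n m b0 + (p - bq w K s n m b0)) = _ :=
      wd_blk (w := w) (K := K) (s := s) (n := n) (m := m) (α := α) (E := E) (C := C)
        (X := ext (Function.update X0 b0 x)) (Sg := Sg) (b := b0) (i := p - bq w K s n m b0) b0.isLt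
        (by omega)
    rw [if_pos hp.2, e, ext_val _ b0.isLt hp.2] at h1
    rw [h1]
    simp
  · rw [paste_none (by unfold ob; rw [dif_neg hp])]
    refine wd_congr ?_ fun _ _ _ _ => rfl
    intro b i hb hi hpe
    rw [ext_val _ hb hi, ext_val _ hb hi, Function.update_of_ne]
    intro h
    apply hp
    have : b = b0 := by rw [← h]
    rw [this] at hpe
    unfold bq
    omega

lemma oq_disj {T : ℕ} (b b' : Fin T) (p : Fin N)
    (h : (ob N n (bq w K s n m b) p).isSome) (h' : (ob N n (bq w K s n m b') p).isSome) : b = b' := by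
  unfold ob at h h'
  split_ifs at h h' with h1 h2
  · unfold bq at h1 h2
    have key : ∀ c c' : ℕ, c < c' → c' * (n + m) ≥ c * (n + m) + (n + m) := by
      intro c c' hc
      have : (c + 1) * (n + m) ≤ c' * (n + m) := Nat.mul_le_mul_right _ hc
      linarith [this, Nat.succ_mul c (n + m)]
    rcases Nat.lt_trichotomy (b : ℕ) b' with hlt | heq | hlt
    · have := key _ _ hlt
      omega
    · exact Fin.ext heq
    · have := key _ _ hlt
      omega
  all_goals simp at h h'

/-- numbers: choice of a popular block, of the other blocks and of the hash value -/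
lemma choose_fiber' {T x n m q : ℕ} (hT0 : 0 < T) (hT : T ≤ 2 ^ x) (hwm : q + x + m ≤ n)
    (G : Finset (Fin T → Fin n → Bool)) (hG : 2 ^ (n * T - q) ≤ G.card)
    (β : (Fin T → Fin n → Bool) → Fin T) (h : (Fin n → Bool) → ℕ → Bool) :
    ∃ (b0 : Fin T) (X0 : Fin T → Fin n → Bool) (W : Finset (Fin n → Bool)),
      2 ^ (n - q - x - m) ≤ W.card ∧ ∀ y ∈ W, Function.update X0 b0 y ∈ G ∧
        β (Function.update X0 b0 y) = b0 ∧ ∀ j < m, h y j = h (X0 b0) j := by
  classical
  have : Nonempty (Fin T) := ⟨⟨0, hT0⟩⟩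
  have hnT : n ≤ n * T := Nat.le_mul_of_pos_right _ hT0
  obtain ⟨b0, _, hb0⟩ := Finset.exists_le_card_fiber_of_mul_le_card_of_maps_to
    (s := G) (t := (Finset.univ : Finset (Fin T)))
    (f := β) (n := 2 ^ (n * T - q - x)) (fun _ _ => Finset.mem_univ _) Finset.univ_nonempty (by
      refine le_trans ?_ hG
      rw [Finset.card_univ, Fintype.card_fin]
      calc T * 2 ^ (n * T - q - x) ≤ 2 ^ x * 2 ^ (n * T - q - x) := Nat.mul_le_mul_right _ hT
        _ = 2 ^ (x + (n * T - q - x)) := by rw [← pow_add]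
        _ ≤ _ := Nat.pow_le_pow_right (by norm_num) (by omega))
  have hcardr : Fintype.card ({j : Fin T // j ≠ b0} → Fin n → Bool) = 2 ^ (n * (T - 1)) := by
    rw [Fintype.card_fun, Fintype.card_fun, Fintype.card_bool, Fintype.card_fin, ← pow_mul]
    congr 2
    rw [Fintype.card_subtype_compl, Fintype.card_fin, Fintype.card_subtype_eq]
  obtain ⟨⟨r, σ⟩, _, hrσ⟩ := Finset.exists_le_card_fiber_of_mul_le_card_of_maps_to
    (s := G.filter (fun X => β X = b0))
    (t := (Finset.univ : Finset (({j : Fin T // j ≠ b0} → Fin n → Bool) × (Fin m → Bool))))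
    (f := fun X => (fun j => X j, fun j => h (X b0) j)) (n := 2 ^ (n - q - x - m))
    (fun _ _ => Finset.mem_univ _) Finset.univ_nonempty (by
      refine le_trans (le_of_eq ?_) hb0
      rw [Finset.card_univ, Fintype.card_prod, hcardr, Fintype.card_fun, Fintype.card_bool,
        Fintype.card_fin, ← pow_add, ← pow_add]
      congr 1
      obtain ⟨T', rfl⟩ : ∃ T', T = T' + 1 := ⟨T - 1, by omega⟩
      rw [Nat.add_sub_cancel, Nat.mul_succ]
      omega)
  set Wt := (G.filter (fun X => β X = b0)).filter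
    (fun X => ((fun j : {j : Fin T // j ≠ b0} => X j, fun j : Fin m => h (X b0) j) :
      ({j : Fin T // j ≠ b0} → Fin n → Bool) × (Fin m → Bool)) = (r, σ)) with hWt
  have hne : Wt.Nonempty := by
    rw [← Finset.card_pos]
    exact lt_of_lt_of_le (by positivity) hrσ
  obtain ⟨X0, hX0⟩ := hne
  have hmem : ∀ X ∈ Wt, X ∈ G ∧ β X = b0 ∧ (∀ j, j ≠ b0 → X j = X0 j) ∧
      ∀ j < m, h (X b0) j = h (X0 b0) j := by
    intro X hX
    rw [hWt, Finset.mem_filter, Finset.mem_filter, Prod.mk.injEq] at hX hX0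
    refine ⟨hX.1.1, hX.1.2, fun j hj => ?_, fun j hj => ?_⟩
    · have := congrFun (hX.2.1.trans hX0.2.1.symm) ⟨j, hj⟩
      exact this
    · have := congrFun (hX.2.2.trans hX0.2.2.symm) ⟨j, hj⟩
      exact this
  have hupd : ∀ X ∈ Wt, Function.update X0 b0 (X b0) = X := by
    intro X hX
    funext j
    by_cases hj : j = b0
    · subst hj; simp
    · rw [Function.update_of_ne hj, (hmem X hX).2.2.1 j hj]
  refine ⟨b0, X0, Wt.image (fun X => X b0), ?_, ?_⟩
  · rw [Finset.card_image_of_injOn]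
    · exact hrσ
    · intro X hX X' hX' he
      rw [← hupd X hX, ← hupd X' hX']
      simp only at he
      rw [he]
  · intro y hy
    obtain ⟨X, hX, rfl⟩ := Finset.mem_image.mp hy
    rw [hupd X hX]
    exact ⟨(hmem X hX).1, (hmem X hX).2.1, (hmem X hX).2.2.2⟩

/-- **The lower bound with explicit parameters.** -/
theorem lower_one {k B t Z : ℕ} (hB : 1 ≤ B) (hs : 4 * B ≤ s) (hw : 1 ≤ w) (hK : 1 ≤ K)
    (hn : n = (N - (w + K + s + 3)) / (8 * K * w)) (hm : m = n / s)
    (hcore : SbpB (5 * k) B n)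
    (hhash : ∃ (α E C : ℕ → ℕ → Bool), ∀ σ : ℕ → ℕ,
      RectFree {x : Fin n → Bool | ∀ j, j < n / s → hv w K n α E C j (xb x) = σ j} t)
    (h1 : 8 + (w + K + s + 3) ≤ n) (h2 : 8 * B * (2 * K * w) ≤ n) (h3 : t * B ≤ n)
    (hZ : 18 * B * (2 * K * w) * (4 * B + 1) ≤ Z) (hN : 2 * Z ^ 2 ≤ N) :
    ∃ A : Finset (Fin N → Bool), A.Nonempty ∧
      (∀ y ∈ A, Pool.Agent.KQL.Lang (List.ofFn y)) ∧
      ∀ (V Γ : Type) [Fintype V] (P : SBP V Γ (Fin N)), (Fintype.card V : ℝ) ≤ (2 : ℝ) ^ ((N : ℝ) / Z) →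
        (∀ y l, P.AccWalk y l → Pool.Agent.KQL.Lang (List.ofFn y)) →
        ∀ S ⊆ A, (∀ y ∈ S, ∃ l, P.AccWalk y l ∧ l.length ≤ k * N) →
          (S.card : ℝ) ≤ (2 : ℝ) ^ (-((N : ℝ) / Z)) * A.card := by
  classical
  obtain ⟨α, E, C, hrf⟩ := hhash
  have hKw : 1 ≤ K * w := Nat.one_le_iff_ne_zero.mpr (by positivity)
  have hKwK : K ≤ K * w := Nat.le_mul_of_pos_right _ (by omega)
  have hKww : w ≤ K * w := Nat.le_mul_of_pos_left _ (by omega)
  obtain ⟨T, hT⟩ : ∃ T, T = 2 * K * w := ⟨_, rfl⟩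
  have hT2 : T = 2 * (K * w) := by rw [hT]; ring
  have hTpos : 0 < T := by omega
  have hnpos : 1 ≤ n := by omega
  have hBr : (1 : ℝ) ≤ B := by exact_mod_cast hB
  have hTr : (1 : ℝ) ≤ T := by exact_mod_cast hTpos
  have hdiv : N - (w + K + s + 3) < 8 * K * w * (n + 1) := by
    rw [hn]; exact Nat.lt_mul_div_succ _ (by positivity)
  have hNn : N ≤ 9 * (K * w) * n := by
    have h8 : (K * w) * (8 + (w + K + s + 3)) ≤ (K * w) * n := Nat.mul_le_mul_left _ h1
    have h9 : (w + K + s + 3) ≤ (K * w) * (w + K + s + 3) := Nat.le_mul_of_pos_left _ (by omega)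
    have e1 : 8 * K * w * (n + 1) = 8 * ((K * w) * n) + 8 * (K * w) := by ring
    have e2 : 9 * (K * w) * n = 9 * ((K * w) * n) := by ring
    have e3 : (K * w) * (8 + (w + K + s + 3)) = 8 * (K * w) + (K * w) * (w + K + s + 3) := by ring
    omega
  have hlenN : w + K + s + 3 + 8 * (K * w) * n ≤ N := by
    have h4 : n * (8 * K * w) ≤ N - (w + K + s + 3) := by rw [hn]; exact Nat.div_mul_le_self _ _
    have h5 : n * (8 * K * w) = 8 * (K * w) * n := by ring
    have h6 : 0 < 8 * (K * w) * n := by positivity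
    omega
  have hNs : w + K + s + 3 ≤ N := by omega
  have hnN : n ≤ N := by
    have h7 : n ≤ 8 * (K * w) * n := Nat.le_mul_of_pos_left _ (by positivity)
    omega
  have hmn : 4 * B * m ≤ n := by
    have h7 : m * s ≤ n := by rw [hm]; exact Nat.div_mul_le_self _ _
    have h8 : m * (4 * B) ≤ m * s := Nat.mul_le_mul_left _ hs
    calc 4 * B * m = m * (4 * B) := by ring
      _ ≤ n := h8.trans h7
  have hmn' : 4 * m ≤ n := by
    have : 4 * 1 * m ≤ 4 * B * m := by gcongr
    omega
  have hn0 : (0 : ℝ) ≤ n := by positivity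
  have hZpos : 0 < Z := by
    have : 0 < 18 * B * (2 * K * w) * (4 * B + 1) := by positivity
    omega
  have hZr : (0 : ℝ) < Z := by exact_mod_cast hZpos
  obtain ⟨ε, hε⟩ : ∃ ε : ℝ, ε = 1 / Z := ⟨_, rfl⟩
  have hε0 : 0 < ε := by rw [hε]; positivity
  have hεNZ : ε * N = (N : ℝ) / Z := by rw [hε]; ring
  rw [← hεNZ]
  have hεN : 0 ≤ ε * N := by positivity
  have hNr : ε * N * (4 * B + 1) ≤ 1 / (B : ℝ) * n / 4 := by
    have h7 : (N : ℝ) ≤ (9 / 2) * T * n := by
      have e : (9 : ℝ) * ((K : ℝ) * w) * n = (9 / 2) * T * n := by rw [hT2]; push_cast; ring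
      rw [← e]; exact_mod_cast hNn
    have h8 : (18 * B * T * (4 * B + 1) : ℝ) ≤ Z := by rw [hT]; exact_mod_cast hZ
    rw [hε, one_div_mul_eq_div, div_mul_eq_mul_div, div_le_iff₀ hZr]
    have e2 : 1 / (B : ℝ) * n / 4 * Z = Z * (n / (4 * B)) := by field_simp
    rw [e2]
    calc (N : ℝ) * (4 * B + 1) ≤ ((9 / 2) * T * n) * (4 * B + 1) :=
          mul_le_mul_of_nonneg_right h7 (by positivity)
      _ = (18 * B * T * (4 * B + 1)) * (n / (4 * B)) := by field_simp; ring
      _ ≤ Z * (n / (4 * B)) := mul_le_mul_of_nonneg_right h8 (by positivity)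
  set q := ⌈ε * N⌉₊ with hq
  have hq1 : ε * N ≤ q := Nat.le_ceil _
  have hq2 : (q : ℝ) ≤ ε * N + 1 := (Nat.ceil_lt_add_one hεN).le
  have hBn : 1 / (B : ℝ) * n ≤ n := by
    calc 1 / (B : ℝ) * n ≤ 1 * n := mul_le_mul_of_nonneg_right (by rw [div_le_one (by linarith)]; exact hBr) hn0
      _ = n := one_mul _
  have hqn : 4 * q ≤ n + 4 := by
    have h8 : ε * N * 1 ≤ ε * N * (4 * B + 1) := mul_le_mul_of_nonneg_left (by linarith) hεN
    have : (4 * q : ℝ) ≤ n + 4 := by linarith
    exact_mod_cast this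
  have hTn : 8 * T ≤ n := by
    have : 8 * 1 * (2 * K * w) ≤ 8 * B * (2 * K * w) := by gcongr
    omega
  have hqwm : q + T + m ≤ n := by omega
  -- the words
  have hlang := fun (X Sg : ℕ → ℕ → Bool) => lang_wl (N := N) (w := w) (K := K) (s := s) (n := n) (m := m)
    (α := α) (E := E) (C := C) (X := X) (Sg := Sg) (by omega) hw hK hNs hn hnpos hm
  set Y : (Fin (2 * K * w) → Fin n → Bool) → Fin N → Bool :=
    fun X p => wd w K s n m α E C (ext X) (sq w K n α E C X) p with hY
  have hYL : ∀ X, Pool.Agent.KQL.Lang (List.ofFn (Y X)) := by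
    intro X
    refine (hlang (ext X) (sq w K n α E C X)).mpr fun b hb j _ => ?_
    rw [ext_xb X hb, sq_val X hb, hbool_toNat]
  have hpos : ∀ b < T, ∀ i < n + m, w + K + s + 3 + w * (2 * n) + K * w + m * K + b * (n + m) + i < N := by
    intro b hb i hi
    have h7 : (b + 1) * (n + m) ≤ T * (n + m) := Nat.mul_le_mul_right _ hb
    have h8 : T * (n + m) ≤ 4 * (K * w * n) := by
      calc T * (n + m) ≤ T * (2 * n) := Nat.mul_le_mul_left _ (by omega)
        _ = 4 * (K * w * n) := by rw [hT2]; ring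
    have h9 : w * (2 * n) ≤ 2 * (K * w * n) := by
      calc w * (2 * n) ≤ (K * w) * (2 * n) := Nat.mul_le_mul_right _ hKww
        _ = _ := by ring
    have h10 : K * w ≤ K * w * n := Nat.le_mul_of_pos_right _ (by omega)
    have h11 : m * K ≤ K * w * n := by
      calc m * K ≤ n * (K * w) := Nat.mul_le_mul (by omega) hKwK
        _ = _ := by ring
    have e1 : (b + 1) * (n + m) = b * (n + m) + (n + m) := by ring
    have e2 : 8 * (K * w) * n = 8 * (K * w * n) := by ring
    omega
  have hYinj : Function.Injective Y := by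
    intro X X' h
    funext b i
    have hb := b.isLt
    have hi := i.isLt
    have hp := hpos b (by rw [hT]; exact hb) i (by omega)
    have h7 := congrFun h ⟨_, hp⟩
    simp only [hY] at h7
    rw [wd_blk hb (by omega), wd_blk hb (by omega), if_pos hi, if_pos hi, ext_val _ hb hi,
      ext_val _ hb hi] at h7
    exact h7
  refine ⟨Finset.univ.image Y, (Finset.univ_nonempty).image Y, ?_, ?_⟩
  · intro y hy
    obtain ⟨X, _, rfl⟩ := Finset.mem_image.mp hy
    exact hYL X
  intro V Γ _ P hV hP S hSA hSl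
  by_contra hcon
  push Not at hcon
  set G : Finset (Fin (2 * K * w) → Fin n → Bool) := Finset.univ.filter (fun X => Y X ∈ S) with hG
  have hGS : G.card = S.card := by
    rw [← Finset.card_image_of_injective G hYinj]
    congr 1
    ext y
    rw [Finset.mem_image]
    constructor
    · rintro ⟨X, hX, rfl⟩
      exact (Finset.mem_filter.mp hX).2
    · intro hy
      obtain ⟨X, _, rfl⟩ := Finset.mem_image.mp (hSA hy)
      exact ⟨X, Finset.mem_filter.mpr ⟨Finset.mem_univ _, hy⟩, rfl⟩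
  have hcardA : (Finset.univ.image Y).card = 2 ^ (n * (2 * K * w)) := by
    rw [Finset.card_image_of_injective _ hYinj, Finset.card_univ, Fintype.card_fun,
      Fintype.card_fun, Fintype.card_bool, Fintype.card_fin, Fintype.card_fin, ← pow_mul]
  have hnT : n ≤ n * (2 * K * w) := Nat.le_mul_of_pos_right _ (by omega)
  have hGc : 2 ^ (n * (2 * K * w) - q) ≤ G.card := by
    rw [hGS]
    have h7 : ((2 : ℝ) ^ (n * (2 * K * w) - q)) ≤ S.card := by
      refine le_trans ?_ hcon.le
      rw [hcardA, ← Real.rpow_natCast, Nat.cast_sub (by omega), Nat.cast_pow, Nat.cast_ofNat,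
        ← Real.rpow_natCast 2 (n * (2 * K * w)), ← Real.rpow_add (by norm_num)]
      apply Real.rpow_le_rpow_of_exponent_le (by norm_num)
      linarith
    exact_mod_cast h7
  have hchoice : ∀ X : Fin (2 * K * w) → Fin n → Bool, ∃ b : Fin (2 * K * w), X ∈ G →
      ∃ l, P.AccWalk (Y X) l ∧ cnt (ob N n (bq w K s n m b)) l * (2 * K * w) ≤ k * N := by
    intro X
    by_cases hX : X ∈ G
    · obtain ⟨l, hl1, hl2⟩ := hSl (Y X) (Finset.mem_filter.mp hX).2
      obtain ⟨b, hb⟩ := exists_rare (show 0 < 2 * K * w by omega)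
        (fun b : Fin (2 * K * w) => ob N n (bq w K s n m b))
        (fun b b' p => oq_disj b b' p) l hl2
      exact ⟨b, fun _ => ⟨l, hl1, hb⟩⟩
    · exact ⟨⟨0, by omega⟩, fun h => absurd h hX⟩
  choose β hβ using hchoice
  have hTT : 2 * K * w ≤ 2 ^ T := by rw [← hT]; exact (Nat.lt_two_pow_self).le
  obtain ⟨b0, X0, W, hWc, hW⟩ := choose_fiber' (show 0 < 2 * K * w by omega) hTT hqwm G hGc β
    (fun x j => hbool w K n α E C x j)
  -- the restricted program
  set base : Fin N → Bool := fun p => wd w K s n m α E C (ext X0) (sq w K n α E C X0) p with hbase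
  set σ : ℕ → ℕ := fun j => hv w K n α E C j (xb (X0 b0)) with hσ
  have hF : ∀ x l, (sres P (ob N n (bq w K s n m b0)) base).AccWalk x l →
      x ∈ {x : Fin n → Bool | ∀ j, j < n / s → hv w K n α E C j (xb x) = σ j} := by
    intro x l hx
    obtain ⟨l', hl'⟩ := walk_of_sres hx
    have h7 : Pool.Agent.KQL.Lang (List.ofFn (paste (ob N n (bq w K s n m b0)) base x)) := hP _ l' hl'
    rw [hbase, paste_wq] at h7
    intro j hj
    have h8 := (hlang _ _).mp h7 b0 b0.isLt j (by rw [hm]; exact hj)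
    rw [ext_xb _ b0.isLt, sq_val X0 b0.isLt, hbool_toNat] at h8
    simp only [Fin.eta, Function.update_self] at h8
    exact h8
  have hWl : ∀ x ∈ W, ∃ l, (sres P (ob N n (bq w K s n m b0)) base).AccWalk x l ∧
      l.length ≤ 5 * k * n := by
    intro x hx
    obtain ⟨h6, h7, h8⟩ := hW x hx
    set X := Function.update X0 b0 x with hX
    have hpaste : paste (ob N n (bq w K s n m b0)) base x = Y X := by
      rw [hbase, paste_wq, hY]
      funext p
      refine wd_congr (fun _ _ _ _ _ => rfl) fun b j hb hj => ?_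
      rw [sq_val X0 hb, sq_val X hb]
      by_cases hbb : (⟨b, hb⟩ : Fin (2 * K * w)) = b0
      · rw [hbb, hX, Function.update_self]
        exact (h8 j hj).symm
      · rw [hX, Function.update_of_ne hbb]
    obtain ⟨l, h9, h10⟩ := hβ X h6
    rw [← hpaste] at h9
    obtain ⟨l', hl', hl''⟩ := sres_of_walk h9
    refine ⟨l', hl', ?_⟩
    rw [h7] at h10
    rw [hl'']
    have h11 : cnt (ob N n (bq w K s n m b0)) l * (2 * K * w) ≤ 5 * k * n * (2 * K * w) := by
      calc cnt (ob N n (bq w K s n m b0)) l * (2 * K * w) ≤ k * N := h10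
        _ ≤ k * (9 * (K * w) * n) := Nat.mul_le_mul_left _ hNn
        _ ≤ k * (10 * (K * w) * n) := by gcongr; norm_num
        _ = _ := by ring
    exact Nat.le_of_mul_le_mul_right h11 (by omega)
  have htn : (t : ℝ) ≤ Real.exp ((n : ℝ) / B) := by
    have h7 : (t : ℝ) ≤ (n : ℝ) / B := by
      rw [le_div_iff₀ (by linarith)]; exact_mod_cast h3
    have := Real.add_one_le_exp ((n : ℝ) / B)
    linarith
  have hA := hcore V Γ (sres P (ob N n (bq w K s n m b0)) base) _ t hF (hrf σ) htn W hWl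
  have hA' : (2 : ℝ) ^ (n - q - T - m) ≤
      ((Fintype.card V : ℝ) + n) ^ (2 * B) * (2 ^ n * Real.exp (-(1 / (B : ℝ) * n))) := by
    rw [one_div_mul_eq_div]
    refine le_trans ?_ hA
    exact_mod_cast hWc
  refine final_numS hε0 (by positivity) hqwm (size_bound hε0 hnN ?_ hV) hq2 hNr ?_ ?_ ?_ hA'
  · rw [hε, one_div, inv_pow, div_inv_eq_mul]
    exact_mod_cast hN
  · rw [one_div_mul_eq_div, le_div_iff₀ (by norm_num), le_div_iff₀ (by linarith)]
    have : 8 * B * 1 ≤ 8 * B * (2 * K * w) := by gcongr; omega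
    have h9 : 1 * 8 * B ≤ n := by omega
    exact_mod_cast h9
  · rw [one_div_mul_eq_div, le_div_iff₀ (by norm_num), le_div_iff₀ (by linarith)]
    have h9 : T * 8 * B ≤ n := by
      calc T * 8 * B = 8 * B * T := by ring
        _ ≤ n := by rw [hT]; exact h2
    exact_mod_cast h9
  · rw [one_div_mul_eq_div, le_div_iff₀ (by norm_num), le_div_iff₀ (by linarith)]
    have h9 : m * 4 * B ≤ n := by
      calc m * 4 * B = 4 * B * m := by ring
        _ ≤ n := hmn
    exact_mod_cast h9

end Pool.Agent.KQL
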