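import Pool.Agent.KQL.HashDef

/-! Polynomials of degree `d` interpolate on `2 ^ d` points, hence a random polynomial is rarely constant
on many points. -/

namespace Pool.Agent.KQL

open Finset

namespace PolyAux

/-- a bit as an element of the field with two elements -/
def bz (b : Bool) : ZMod 2 := if b then 1 else 0

theorem bz_inj : Function.Injective bz := by
  intro a b
  cases a <;> cases b <;> simp [bz]

theorem z2 (x : ZMod 2) : x = 0 ∨ x = 1 := by
  revert x
  decide

/-- the point `v` with an extra coordinate 1 -/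
def ext {w : ℕ} (v : Fin w → Bool) (k : Fin (w + 1)) : ZMod 2 :=
  if h : k.val < w then bz (v ⟨k.val, h⟩) else 1

theorem ext_castSucc {w : ℕ} (v : Fin w → Bool) (q : Fin w) : ext v q.castSucc = bz (v q) := by
  simp [ext]

theorem ext_last {w : ℕ} (v : Fin w → Bool) : ext v (Fin.last w) = 1 := by
  simp [ext]

/-- value of a monomial -/
def mval {w d : ℕ} (f : Fin d → Fin (w + 1)) (v : Fin w → Bool) : ZMod 2 := ∏ l, ext v (f l)

open Classical in
theorem mval_eq {w d : ℕ} (f : Fin d → Fin (w + 1)) (v : Fin w → Bool) :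
    mval f v = if (∀ q : Fin w, (∃ l, f l = q.castSucc) → v q = true) then 1 else 0 := by
  split_ifs with h
  · refine Finset.prod_eq_one fun l _ => ?_
    rcases Fin.eq_castSucc_or_eq_last (f l) with ⟨q, hq⟩ | hl
    · rw [hq, ext_castSucc, h q ⟨l, hq⟩]
      rfl
    · rw [hl, ext_last]
  · push Not at h
    obtain ⟨q, ⟨l, hl⟩, hv⟩ := h
    refine Finset.prod_eq_zero (Finset.mem_univ l) ?_
    rw [hl, ext_castSucc]
    have : v q = false := by simpa using hv
    rw [this]
    rfl

/-- the list of monomials -/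
def EE (w d : ℕ) (e : Fin ((w + 1) ^ d)) (q : Fin w) : Bool :=
  decide (∃ l : Fin d, finFunctionFinEquiv.symm e l = q.castSucc)

/-- value of a polynomial with coefficients in the field with two elements -/
def PV {w d : ℕ} (c : Fin ((w + 1) ^ d) → ZMod 2) (v : Fin w → Bool) : ZMod 2 :=
  ∑ e, c e * mval (finFunctionFinEquiv.symm e) v

theorem bz_pv {w d : ℕ} (c : Fin ((w + 1) ^ d) → Bool) (v : Fin w → Bool) :
    bz (pv (EE w d) c v) = PV (fun e => bz (c e)) v := by
  classical
  have h1 : PV (fun e => bz (c e)) v = (((Finset.univ.filter fun e =>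
      c e = true ∧ ∀ q, EE w d e q = true → v q = true).card : ℕ) : ZMod 2) := by
    rw [PV, Finset.natCast_card_filter]
    refine Finset.sum_congr rfl fun e _ => ?_
    rw [mval_eq]
    have h2 : (∀ q : Fin w, (∃ l, finFunctionFinEquiv.symm e l = q.castSucc) → v q = true) ↔
        ∀ q, EE w d e q = true → v q = true := by
      simp only [EE, decide_eq_true_eq]
    by_cases hc : c e = true
    · by_cases hq : ∀ q, EE w d e q = true → v q = true
      · rw [if_pos (h2.mpr hq), if_pos ⟨hc, hq⟩, hc]
        simp [bz]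
      · rw [if_neg (fun h => hq (h2.mp h)), if_neg (fun h => hq h.2), mul_zero]
    · have hc' : c e = false := by simpa using hc
      rw [if_neg (fun h : c e = true ∧ _ => hc h.1), hc']
      simp [bz]
  rw [h1, pv]
  rcases Nat.mod_two_eq_zero_or_one (Finset.univ.filter fun e =>
      c e = true ∧ ∀ q, EE w d e q = true → v q = true).card with h | h
  · have h3 : (((Finset.univ.filter fun e =>
      c e = true ∧ ∀ q, EE w d e q = true → v q = true).card : ℕ) : ZMod 2) = 0 :=
      (ZMod.natCast_eq_zero_iff_even).mpr (Nat.even_iff.mpr h)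
    rw [h3]
    simp [bz, h]
  · have h3 : (((Finset.univ.filter fun e =>
      c e = true ∧ ∀ q, EE w d e q = true → v q = true).card : ℕ) : ZMod 2) = 1 :=
      (ZMod.natCast_eq_one_iff_odd).mpr (Nat.odd_iff.mpr h)
    rw [h3]
    simp [bz, h]

/-- half of the linear forms vanish at a point -/
theorem half {w : ℕ} (δ : Fin w → ZMod 2) (hδ : δ ≠ 0) :
    2 * (Finset.univ.filter fun z : Fin w → ZMod 2 => ∑ q, z q * δ q = 0).card =
      Fintype.card (Fin w → ZMod 2) := by
  classical
  obtain ⟨q0, hq0⟩ : ∃ q, δ q ≠ 0 := by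
    by_contra hcon
    push Not at hcon
    exact hδ (funext hcon)
  have hq1 : δ q0 = 1 := (z2 (δ q0)).resolve_left hq0
  have key : ∀ z : Fin w → ZMod 2,
      ∑ q, (z + (Pi.single q0 1 : Fin w → ZMod 2)) q * δ q = ∑ q, z q * δ q + 1 := by
    intro z
    simp only [Pi.add_apply, add_mul, Finset.sum_add_distrib]
    congr 1
    rw [Finset.sum_eq_single q0]
    · simp [hq1]
    · intro b _ hb
      simp [Pi.single_apply, hb]
    · intro h
      exact absurd (Finset.mem_univ q0) h
  have hbij : (Finset.univ.filter fun z : Fin w → ZMod 2 => ∑ q, z q * δ q = 0).card =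
      (Finset.univ.filter fun z : Fin w → ZMod 2 => ¬ (∑ q, z q * δ q = 0)).card := by
    have hss : ∀ z : Fin w → ZMod 2, z + Pi.single q0 1 + Pi.single q0 1 = z := by
      intro z
      have h2 : (Pi.single q0 1 : Fin w → ZMod 2) + Pi.single q0 1 = 0 := by
        rw [← Pi.single_add]
        have : (1 : ZMod 2) + 1 = 0 := by decide
        rw [this, Pi.single_zero]
      rw [add_assoc, h2, add_zero]
    refine Finset.card_nbij' (fun z => z + Pi.single q0 1) (fun z => z + Pi.single q0 1) ?_ ?_ ?_ ?_
    · intro z hz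
      simp only [Finset.coe_filter, Finset.mem_univ, true_and, Set.mem_ofPred_eq] at hz ⊢
      rw [key, hz]
      decide
    · intro z hz
      simp only [Finset.coe_filter, Finset.mem_univ, true_and, Set.mem_ofPred_eq] at hz ⊢
      rw [key, (z2 _).resolve_left hz]
      decide
    · intro z _
      exact hss z
    · intro z _
      exact hss z
  have hsum := Finset.card_filter_add_card_filter_not (s := (Finset.univ : Finset (Fin w → ZMod 2)))
    (fun z : Fin w → ZMod 2 => ∑ q, z q * δ q = 0)
  rw [Finset.card_univ] at hsum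
  omega

/-- value of an affine form -/
def aff {w : ℕ} (a : Fin (w + 1) → ZMod 2) (v : Fin w → Bool) : ZMod 2 := ∑ k, a k * ext v k

/-- some affine form with value 1 at `u` kills at least half of the points of `P` -/
theorem exists_form {w : ℕ} (u : Fin w → Bool) (P : Finset (Fin w → Bool)) (hu : u ∉ P) :
    ∃ a : Fin (w + 1) → ZMod 2, aff a u = 1 ∧
      2 * (P.filter fun p => ¬ (aff a p = 0)).card ≤ P.card := by
  classical
  -- the form attached to z
  let A : (Fin w → ZMod 2) → Fin (w + 1) → ZMod 2 := fun z =>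
    Fin.snoc z (1 + ∑ q, z q * bz (u q))
  have hA : ∀ z p, aff (A z) p = 1 + ∑ q, z q * (bz (p q) + bz (u q)) := by
    intro z p
    rw [aff, Fin.sum_univ_castSucc]
    simp only [A, Fin.snoc_castSucc, Fin.snoc_last, ext_castSucc, ext_last, mul_one, mul_add,
      Finset.sum_add_distrib]
    ring
  have hAu : ∀ z, aff (A z) u = 1 := by
    intro z
    rw [hA]
    have : ∀ q, z q * (bz (u q) + bz (u q)) = 0 := by
      intro q
      rw [CharTwo.add_self_eq_zero, mul_zero]
    simp [this]
  by_contra hcon
  push Not at hcon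
  have hcon2 : ∀ z, P.card < 2 * (P.filter fun p => ¬ (aff (A z) p = 0)).card := fun z =>
    hcon (A z) (hAu z)
  have hp : ∀ p ∈ P, 2 * (Finset.univ.filter fun z : Fin w → ZMod 2 => ¬ (aff (A z) p = 0)).card =
      Fintype.card (Fin w → ZMod 2) := by
    intro p hpP
    have hne : (fun q => bz (p q) + bz (u q)) ≠ 0 := by
      intro h0
      apply hu
      have : p = u := by
        funext q
        have h1 := congrFun h0 q
        simp only [Pi.zero_apply] at h1
        exact bz_inj (CharTwo.add_eq_zero.mp h1)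
      rw [← this]
      exact hpP
    rw [← half _ hne]
    congr 2
    ext z
    simp only [Finset.mem_filter, Finset.mem_univ, true_and]
    rw [hA]
    rcases z2 (∑ q, z q * (bz (p q) + bz (u q))) with h | h
    · rw [h]
      simp
    · rw [h]
      decide
  have hdc : ∑ z : Fin w → ZMod 2, (P.filter fun p => ¬ (aff (A z) p = 0)).card =
      ∑ p ∈ P, (Finset.univ.filter fun z : Fin w → ZMod 2 => ¬ (aff (A z) p = 0)).card := by
    simp only [Finset.card_filter]
    rw [Finset.sum_comm]
  have h1 : ∑ z : Fin w → ZMod 2, 2 * (P.filter fun p => ¬ (aff (A z) p = 0)).card =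
      P.card * Fintype.card (Fin w → ZMod 2) := by
    rw [← Finset.mul_sum, hdc, Finset.mul_sum, Finset.sum_congr rfl hp, Finset.sum_const,
      smul_eq_mul]
  have h2 : ∑ _z : Fin w → ZMod 2, P.card < ∑ z : Fin w → ZMod 2,
      2 * (P.filter fun p => ¬ (aff (A z) p = 0)).card :=
    Finset.sum_lt_sum_of_nonempty Finset.univ_nonempty (fun z _ => hcon2 z)
  rw [h1, Finset.sum_const, Finset.card_univ, smul_eq_mul, mul_comm] at h2
  exact lt_irrefl _ h2

theorem interp {w : ℕ} (u : Fin w → Bool) : ∀ (d : ℕ) (P : Finset (Fin w → Bool)), u ∉ P →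
    P.card < 2 ^ d → ∃ a : Fin d → Fin (w + 1) → ZMod 2, (∏ l, aff (a l) u = 1) ∧
      ∀ p ∈ P, ∏ l, aff (a l) p = 0 := by
  classical
  intro d
  induction d with
  | zero =>
    intro P _ hc
    have : P = ∅ := Finset.card_eq_zero.mp (by simpa using hc)
    subst this
    exact ⟨Fin.elim0, by simp, by simp⟩
  | succ d ih =>
    intro P hu hc
    obtain ⟨a0, h1, h2⟩ := exists_form u P hu
    obtain ⟨a, h3, h4⟩ := ih (P.filter fun p => ¬ (aff a0 p = 0))
      (fun h => hu (Finset.mem_filter.mp h).1) (by rw [pow_succ] at hc; omega)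
    refine ⟨Fin.cons a0 a, ?_, ?_⟩
    · rw [Fin.prod_univ_succ]
      simp [h1, h3]
    · intro p hp
      rw [Fin.prod_univ_succ]
      simp only [Fin.cons_zero, Fin.cons_succ]
      by_cases h5 : aff a0 p = 0
      · rw [h5, zero_mul]
      · rw [h4 p (Finset.mem_filter.mpr ⟨hp, h5⟩), mul_zero]

theorem prod_aff {w d : ℕ} (a : Fin d → Fin (w + 1) → ZMod 2) (v : Fin w → Bool) :
    ∏ l, aff (a l) v = PV (fun e => ∏ l, a l (finFunctionFinEquiv.symm e l)) v := by
  classical
  simp only [aff]
  rw [Finset.prod_univ_sum, Fintype.piFinset_univ, PV]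
  rw [← Equiv.sum_comp (finFunctionFinEquiv (m := w + 1) (n := d)).symm
    (fun x => ∏ l, a l (x l) * ext v (x l))]
  refine Finset.sum_congr rfl fun e _ => ?_
  rw [mval, Finset.prod_mul_distrib]

theorem PV_add {w d : ℕ} (c c' : Fin ((w + 1) ^ d) → ZMod 2) (v : Fin w → Bool) :
    PV (c + c') v = PV c v + PV c' v := by
  simp only [PV, Pi.add_apply, add_mul, Finset.sum_add_distrib]

theorem PV_sum {w d : ℕ} {κ : Type} (s : Finset κ) (c : κ → Fin ((w + 1) ^ d) → ZMod 2)
    (v : Fin w → Bool) : PV (∑ k ∈ s, c k) v = ∑ k ∈ s, PV (c k) v := by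
  simp only [PV, Finset.sum_apply, Finset.sum_mul]
  rw [Finset.sum_comm]

theorem PV_smul {w d : ℕ} (r : ZMod 2) (c : Fin ((w + 1) ^ d) → ZMod 2)
    (v : Fin w → Bool) : PV (r • c) v = r * PV c v := by
  simp only [PV, Pi.smul_apply, smul_eq_mul, Finset.mul_sum, mul_assoc]

/-- every function on the family is the restriction of a polynomial -/
theorem surj {w d : ℕ} {ι : Type} [Fintype ι] (v : ι → Fin w → Bool) (hv : Function.Injective v)
    (hc : Fintype.card ι ≤ 2 ^ d) (y : ι → ZMod 2) :
    ∃ c : Fin ((w + 1) ^ d) → ZMod 2, ∀ p, PV c (v p) = y p := by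
  classical
  have h1 : ∀ p0 : ι, ∃ c : Fin ((w + 1) ^ d) → ZMod 2, ∀ p, PV c (v p) = if p = p0 then 1 else 0 := by
    intro p0
    obtain ⟨a, h2, h3⟩ := interp (v p0) d ((Finset.univ.erase p0).image v) (by
      simp only [Finset.mem_image, Finset.mem_erase, Finset.mem_univ, and_true, not_exists, not_and]
      intro p hp h
      exact hp (hv h)) (by
      rw [Finset.card_image_of_injective _ hv, Finset.card_erase_of_mem (Finset.mem_univ _),
        Finset.card_univ]
      have : 0 < Fintype.card ι := Fintype.card_pos_iff.mpr ⟨p0⟩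
      omega)
    refine ⟨_, fun p => (prod_aff a (v p)).symm.trans ?_⟩
    split_ifs with h
    · rw [h]
      exact h2
    · exact h3 _ (Finset.mem_image.mpr ⟨p, Finset.mem_erase.mpr ⟨h, Finset.mem_univ _⟩, rfl⟩)
  choose c hc using h1
  refine ⟨∑ p0, y p0 • c p0, fun p => ?_⟩
  rw [PV_sum]
  simp only [PV_smul, hc]
  simp

end PolyAux

open PolyAux in
/-- For a suitable list `E` of `(w + 1) ^ d` monomials of degree at most `d` in `w` variables (over the
field with two elements): if `v` is an injective family of at most `2 ^ d` points then at most a fraction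
`2 ^ (1 - T)` of the coefficient vectors give a polynomial that is constant on the `T` points of the
family.

Proof. Index the monomials by `e : Fin d → Fin (w + 1)` (transport with `finFunctionFinEquiv` or
`Fintype.equivFin`), `E e q = true` iff `q = (e l)` for some `l` (the index `w` stands for the constant 1).
(1) For a point `u` and a finite set `P` of points different from `u` with `P.card < 2 ^ d` there are
affine forms `ℓ_1, ..., ℓ_d` (`ℓ = b + ∑_{q ∈ Z} x_q`) with `ℓ_i(u) = 1` for all `i` and such that every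
point of `P` is a zero of some `ℓ_i`: by averaging over `Z` (for `p ≠ u` exactly half of the `Z` satisfy
`∑_{q ∈ Z} (p_q + u_q) = 1`, i.e. `ℓ(p) = 0` if `b` is chosen with `ℓ(u) = 1`), some form kills at least
half of the points of `P`; induct on `d`. (2) The product `∏ ℓ_i` expands into a combination of the
monomials, with coefficient `∏_i a_{i, e i}` at `e`. (3) So for every point `p0` of the family some
coefficient vector `c0` has value 1 at `v p0` and value 0 at the other points; adding such vectors shows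
that all fibres of `c ↦ (pv E c (v p))_p` have the same size `2 ^ K / 2 ^ T`; two of the fibres are the
constant ones. (The value `pv` is the parity of a count: `pv E (c xor c') v = xor (pv E c v) (pv E c' v)`.) -/
theorem exists_monomials (w d : ℕ) : ∃ E : Fin ((w + 1) ^ d) → Fin w → Bool,
    ∀ (ι : Type) [Fintype ι] [Nonempty ι] (v : ι → Fin w → Bool), Function.Injective v →
      Fintype.card ι ≤ 2 ^ d →
      (((Finset.univ : Finset (Fin ((w + 1) ^ d) → Bool)).filter
        fun c => ∀ p q, pv E c (v p) = pv E c (v q)).card : ℝ) ≤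
        2 ^ ((w + 1) ^ d) / 2 ^ (Fintype.card ι - 1) := by
  classical
  refine ⟨EE w d, ?_⟩
  intro ι _ _ v hv hc
  rw [le_div_iff₀ (by positivity)]
  obtain ⟨p0⟩ : Nonempty ι := inferInstance
  -- the shifts
  have hs : ∀ y : {p : ι // p ≠ p0} → Bool, ∃ c : Fin ((w + 1) ^ d) → ZMod 2,
      ∀ p, PV c (v p) = if h : p = p0 then 0 else bz (y ⟨p, h⟩) := fun y =>
    surj v hv hc _
  choose cs hcs using hs
  let S : Finset (Fin ((w + 1) ^ d) → Bool) :=
    (Finset.univ : Finset (Fin ((w + 1) ^ d) → Bool)).filter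
      fun c => ∀ p q, pv (EE w d) c (v p) = pv (EE w d) c (v q)
  let F : (Fin ((w + 1) ^ d) → Bool) × ({p : ι // p ≠ p0} → Bool) → (Fin ((w + 1) ^ d) → ZMod 2) :=
    fun x => (fun e => bz (x.1 e)) + cs x.2
  have hF : Set.InjOn F ((S ×ˢ (Finset.univ : Finset ({p : ι // p ≠ p0} → Bool)) :
      Finset _) : Set ((Fin ((w + 1) ^ d) → Bool) × ({p : ι // p ≠ p0} → Bool))) := by
    rintro ⟨c, y⟩ hx ⟨c', y'⟩ hx' hxx
    simp only [Finset.coe_product, Set.mem_prod, Finset.mem_coe, Finset.mem_univ, and_true, S,
      Finset.mem_filter, true_and] at hx hx'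
    have h1 : ∀ p, PV (F (c, y)) (v p) = PV (F (c', y')) (v p) := fun p => by rw [hxx]
    have h2 : ∀ p, bz (pv (EE w d) c (v p)) + (if h : p = p0 then 0 else bz (y ⟨p, h⟩)) =
        bz (pv (EE w d) c' (v p)) + (if h : p = p0 then 0 else bz (y' ⟨p, h⟩)) := by
      intro p
      have h3 := h1 p
      simp only [F] at h3
      rw [PV_add, PV_add, ← bz_pv, ← bz_pv, hcs, hcs] at h3
      exact h3
    have h3 := h2 p0
    rw [dif_pos rfl, dif_pos rfl, add_zero, add_zero] at h3
    have hy : y = y' := by
      funext p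
      have h4 := h2 p.1
      rw [dif_neg p.2, dif_neg p.2, hx p.1 p0, hx' p.1 p0, h3] at h4
      exact bz_inj (add_left_cancel h4)
    subst hy
    have h5 : (fun e => bz (c e)) = (fun e => bz (c' e)) := add_right_cancel hxx
    have hcc : c = c' := by
      funext e
      exact bz_inj (congrFun h5 e)
    rw [hcc]
  have hcard : (S ×ˢ (Finset.univ : Finset ({p : ι // p ≠ p0} → Bool))).card ≤
      Fintype.card (Fin ((w + 1) ^ d) → ZMod 2) := by
    rw [← Finset.card_univ]
    exact Finset.card_le_card_of_injOn F (fun _ _ => Finset.mem_univ _) hF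
  have h6 : Fintype.card ({p : ι // p ≠ p0} → Bool) = 2 ^ (Fintype.card ι - 1) := by
    rw [Fintype.card_fun, Fintype.card_bool, Fintype.card_subtype_compl, Fintype.card_subtype_eq]
  have h7 : Fintype.card (Fin ((w + 1) ^ d) → ZMod 2) = 2 ^ ((w + 1) ^ d) := by
    rw [Fintype.card_fun, ZMod.card, Fintype.card_fin]
  rw [Finset.card_product, Finset.card_univ, h6, h7] at hcard
  have h8 : ((S.card * 2 ^ (Fintype.card ι - 1) : ℕ) : ℝ) ≤ ((2 ^ ((w + 1) ^ d) : ℕ) : ℝ) := by
    exact_mod_cast hcard
  push_cast at h8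
  exact h8

end Pool.Agent.KQL
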