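import Pool.Agent.KQL.Main
import Pool.Agent.KQL.Hash
import Pool.Agent.KQL.Poly
import Pool.Agent.KQ.Growth

/-! The choice of the parameters. -/

namespace Pool.Agent.KQL

open Pool.Agent.SemRO Pool.Agent.KNL
open Pool.Agent.KQ

/-- **The quantitative lower bound.** -/
theorem lower_quant : ∃ c : ℕ, ∀ k : ℕ, 2 ≤ k → ∀ N : ℕ, 2 ^ (k ^ c) ≤ N →
    ∃ A : Finset (Fin N → Bool), A.Nonempty ∧
      (∀ y ∈ A, Pool.Agent.KQL.Lang (List.ofFn y)) ∧
      ∀ (V Γ : Type) [Fintype V] (P : SBP V Γ (Fin N)),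
        (Fintype.card V : ℝ) ≤ (2 : ℝ) ^ ((N : ℝ) / 2 ^ (k ^ c)) →
        (∀ y l, P.AccWalk y l → Pool.Agent.KQL.Lang (List.ofFn y)) →
        ∀ S ⊆ A, (∀ y ∈ S, ∃ l, P.AccWalk y l ∧ l.length ≤ k * N) →
          (S.card : ℝ) ≤ (2 : ℝ) ^ (-((N : ℝ) / 2 ^ (k ^ c))) * A.card := by
  classical
  obtain ⟨c1, hc1⟩ := sbp_quant
  obtain ⟨u, hu⟩ : ∃ u : ℕ → ℕ, ∀ k, u k = (5 * k) ^ c1 := ⟨_, fun _ => rfl⟩
  obtain ⟨B, hB⟩ : ∃ B : ℕ → ℕ, ∀ k, B k = 2 ^ u k := ⟨_, fun _ => rfl⟩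
  obtain ⟨s, hs⟩ : ∃ s : ℕ → ℕ, ∀ k, s k = 4 * B k := ⟨_, fun _ => rfl⟩
  obtain ⟨w, hw⟩ : ∃ w : ℕ → ℕ, ∀ k, w k =
    8 * s k * ((8 * s k + 2) * (8 * s k + 2)) ^ 2 * (8 * s k + 5) := ⟨_, fun _ => rfl⟩
  obtain ⟨d, hd⟩ : ∃ d : ℕ → ℕ, ∀ k, d k = 12 + 2 * u k := ⟨_, fun _ => rfl⟩
  obtain ⟨K, hK⟩ : ∃ K : ℕ → ℕ, ∀ k, K k = (w k + 1) ^ d k := ⟨_, fun _ => rfl⟩
  obtain ⟨n1, hn1⟩ : ∃ n1 : ℕ → ℕ, ∀ k, n1 k =
    (2 * ((8 * s k + 2) * (8 * s k + 2)) ^ 2 * s k + ((8 * s k + 2) * (8 * s k + 2)) ^ 2 + 2) +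
    (8 + (w k + K k + s k + 3)) + 8 * B k * (2 * K k * w k) + (8 * s k + 2) * B k + B k :=
    ⟨_, fun _ => rfl⟩
  obtain ⟨G, hG⟩ : ∃ G : ℕ → ℕ, ∀ k, G k = w k + K k + s k + 3 + 8 * K k * w k * n1 k :=
    ⟨_, fun _ => rfl⟩
  obtain ⟨Z, hZ⟩ : ∃ Z : ℕ → ℕ, ∀ k, Z k = 18 * B k * (2 * K k * w k) * (4 * B k + 1) :=
    ⟨_, fun _ => rfl⟩
  -- growth
  have huPB : PB (fun k => (u k : ℝ)) :=
    (((PB.const 5).mul PB.id (fun k _ => Nat.cast_nonneg k)).pow (fun k _ => by positivity) c1).mono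
      fun k _ => by rw [hu]; push_cast; rfl
  have hBEB : EB (fun k => (B k : ℝ)) :=
    ((EB.const 2).npow (fun _ _ => by norm_num) huPB).mono fun k _ => by rw [hB]; push_cast; rfl
  have hsEB : EB (fun k => (s k : ℝ)) :=
    ((EB.const 4).mul hBEB (fun k _ => Nat.cast_nonneg _)).mono fun k _ => by rw [hs]; push_cast; rfl
  have htEB : EB (fun k => 8 * (s k : ℝ) + 2) :=
    ((EB.const 8).mul hsEB (fun k _ => Nat.cast_nonneg _)).add (EB.const 2)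
  have ht5EB : EB (fun k => 8 * (s k : ℝ) + 5) :=
    ((EB.const 8).mul hsEB (fun k _ => Nat.cast_nonneg _)).add (EB.const 5)
  have ht2EB : EB (fun k => (8 * (s k : ℝ) + 2) * (8 * (s k : ℝ) + 2)) :=
    htEB.mul htEB (fun k _ => by positivity)
  have ht4EB : EB (fun k => ((8 * (s k : ℝ) + 2) * (8 * (s k : ℝ) + 2)) ^ 2) :=
    (ht2EB.mul ht2EB (fun k _ => by positivity)).mono fun k _ => by rw [pow_two]
  have hwEB : EB (fun k => (w k : ℝ)) :=
    ((((EB.const 8).mul hsEB (fun k _ => Nat.cast_nonneg _)).mul ht4EB (fun k _ => by positivity)).mul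
      ht5EB (fun k _ => by positivity)).mono fun k _ => by rw [hw]; push_cast; rfl
  have hdPB : PB (fun k => (d k : ℝ)) :=
    ((PB.const 12).add ((PB.const 2).mul huPB (fun k _ => Nat.cast_nonneg _))).mono
      fun k _ => by rw [hd]; push_cast; rfl
  have hKEB : EB (fun k => (K k : ℝ)) :=
    ((hwEB.add (EB.const 1)).npow (fun k _ => by
      have : (0 : ℝ) ≤ w k := Nat.cast_nonneg _
      linarith) hdPB).mono fun k _ => by rw [hK]; push_cast; rfl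
  have hKwEB : EB (fun k => 2 * (K k : ℝ) * w k) :=
    ((EB.const 2).mul hKEB (fun k _ => Nat.cast_nonneg _)).mul hwEB (fun k _ => Nat.cast_nonneg _)
  have hn1EB : EB (fun k => (n1 k : ℝ)) := by
    have h1 : EB (fun k => 2 * ((8 * (s k : ℝ) + 2) * (8 * (s k : ℝ) + 2)) ^ 2 * s k) :=
      ((EB.const 2).mul ht4EB (fun k _ => by positivity)).mul hsEB (fun k _ => Nat.cast_nonneg _)
    have h2 := (h1.add ht4EB).add (EB.const 2)
    have h3 := ((hwEB.add hKEB).add hsEB).add (EB.const 3)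
    have h4 := (EB.const 8).add h3
    have h5 : EB (fun k => 8 * (B k : ℝ) * (2 * K k * w k)) :=
      ((EB.const 8).mul hBEB (fun k _ => Nat.cast_nonneg _)).mul hKwEB (fun k _ => by positivity)
    have h6 : EB (fun k => (8 * (s k : ℝ) + 2) * B k) := htEB.mul hBEB (fun k _ => Nat.cast_nonneg _)
    exact ((((h2.add h4).add h5).add h6).add hBEB).mono fun k _ => by rw [hn1]; push_cast; rfl
  have hGEB : EB (fun k => (G k : ℝ)) := by
    have h3 := ((hwEB.add hKEB).add hsEB).add (EB.const 3)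
    have h4 : EB (fun k => 8 * (K k : ℝ) * w k * n1 k) :=
      ((((EB.const 8).mul hKEB (fun k _ => Nat.cast_nonneg _)).mul hwEB (fun k _ => Nat.cast_nonneg _))).mul
        hn1EB (fun k _ => Nat.cast_nonneg _)
    exact (h3.add h4).mono fun k _ => by rw [hG]; push_cast; rfl
  have hZEB : EB (fun k => (Z k : ℝ)) := by
    have h1 : EB (fun k => 18 * (B k : ℝ) * (2 * K k * w k)) :=
      ((EB.const 18).mul hBEB (fun k _ => Nat.cast_nonneg _)).mul hKwEB (fun k _ => by positivity)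
    have h2 : EB (fun k => 4 * (B k : ℝ) + 1) :=
      ((EB.const 4).mul hBEB (fun k _ => Nat.cast_nonneg _)).add (EB.const 1)
    exact (h1.mul h2 (fun k _ => by positivity)).mono fun k _ => by rw [hZ]; push_cast; rfl
  obtain ⟨a1, ha1⟩ := hGEB
  obtain ⟨a2, ha2⟩ := hZEB
  refine ⟨max a1 a2 + 2, fun k hk N hN => ?_⟩
  obtain ⟨a, ha⟩ : ∃ a, a = max a1 a2 := ⟨_, rfl⟩
  have hGa : G k ≤ 2 ^ (k ^ a) := by
    have h := (ha1 k hk).trans (kpow_mono' hk (le_max_left a1 a2))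
    simp only at h
    rw [ha]
    exact_mod_cast h
  have hZa : Z k ≤ 2 ^ (k ^ a) := by
    have h := (ha2 k hk).trans (kpow_mono' hk (le_max_right a1 a2))
    simp only at h
    rw [ha]
    exact_mod_cast h
  rw [← ha] at hN ⊢
  have hka : 1 ≤ k ^ a := Nat.one_le_pow _ _ (by omega)
  have hpow : 2 * k ^ a + 1 ≤ k ^ (a + 2) := by
    have h4 : 4 ≤ k ^ 2 := by
      calc 4 = 2 ^ 2 := by norm_num
        _ ≤ k ^ 2 := Nat.pow_le_pow_left hk 2
    calc 2 * k ^ a + 1 ≤ k ^ a * 4 := by omega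
      _ ≤ k ^ a * k ^ 2 := Nat.mul_le_mul_left _ h4
      _ = _ := by rw [← pow_add]
  have hZN : 2 * (2 ^ (k ^ a)) ^ 2 ≤ N := by
    refine le_trans ?_ hN
    calc 2 * (2 ^ (k ^ a)) ^ 2 = 2 ^ (2 * k ^ a + 1) := by rw [← pow_mul, pow_succ]; ring_nf
      _ ≤ _ := Nat.pow_le_pow_right (by norm_num) hpow
  have hle : k ^ a ≤ k ^ (a + 2) := by omega
  have hGN : G k ≤ N := hGa.trans ((Nat.pow_le_pow_right (by norm_num) hle).trans hN)
  have hBpos : 1 ≤ B k := by rw [hB]; exact Nat.one_le_two_pow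
  have hspos : 1 ≤ s k := by rw [hs]; omega
  have hwpos : 1 ≤ w k := by
    rw [hw]
    have : 0 < 8 * s k * ((8 * s k + 2) * (8 * s k + 2)) ^ 2 * (8 * s k + 5) := by positivity
    exact this
  have hKpos : 1 ≤ K k := by rw [hK]; exact Nat.one_le_pow _ _ (by omega)
  obtain ⟨n, hn⟩ : ∃ n, n = (N - (w k + K k + s k + 3)) / (8 * K k * w k) := ⟨_, rfl⟩
  have hn1n : n1 k ≤ n := by
    rw [hn, Nat.le_div_iff_mul_le (by positivity)]
    have e : n1 k * (8 * K k * w k) = 8 * K k * w k * n1 k := by ring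
    have := hG k
    omega
  have hn1k := hn1 k
  obtain ⟨E, hE⟩ := exists_monomials (w k) (d k)
  have hE' : Hash.Interp (K := (w k + 1) ^ d k) E (2 ^ d k) := fun ι _ _ v hv hc => hE ι v hv hc
  have hDd : (8 * s k + 2) * (8 * s k + 2) ≤ 2 ^ d k := by
    have h1 : 8 * s k + 2 ≤ 2 ^ (6 + u k) := by
      rw [hs, pow_add, ← hB]; omega
    calc (8 * s k + 2) * (8 * s k + 2) ≤ 2 ^ (6 + u k) * 2 ^ (6 + u k) := Nat.mul_le_mul h1 h1
      _ = 2 ^ d k := by rw [← pow_add, hd]; congr 1; ring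
  have hhash := exists_hash (s := s k) (w := w k) (n := n) hspos hE' hDd (hw k).ge (by omega)
  rw [← hK k] at hhash
  have hcore : SbpB (5 * k) (B k) n := by
    refine hc1 (5 * k) (by omega) (B k) n ?_ ?_
    · rw [hB, hu]
    · rw [← hu, ← hB]; omega
  obtain ⟨A, hA, hAL, hA2⟩ := lower_one (N := N) (w := w k) (K := K k) (s := s k) (n := n)
    (m := n / s k) (k := k) (B := B k) (t := 8 * s k + 2) (Z := 2 ^ (k ^ a)) hBpos (hs k).ge hwpos hKpos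
    hn rfl hcore hhash (by omega) (by omega) (by omega) (by rw [← hZ]; exact hZa) hZN
  have hcast : (((2 ^ (k ^ a) : ℕ)) : ℝ) = 2 ^ (k ^ a) := by push_cast; rfl
  rw [hcast] at hA2
  have hmono : (N : ℝ) / 2 ^ (k ^ (a + 2)) ≤ (N : ℝ) / 2 ^ (k ^ a) :=
    div_le_div_of_nonneg_left (Nat.cast_nonneg _) (by positivity)
      (pow_le_pow_right₀ (by norm_num) hle)
  refine ⟨A, hA, hAL, fun V Γ _ P hV hP S hS hSl => ?_⟩
  have h1 := hA2 V Γ P (hV.trans (Real.rpow_le_rpow_of_exponent_le (by norm_num) hmono)) hP S hS hSl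
  refine h1.trans (mul_le_mul_of_nonneg_right ?_ (Nat.cast_nonneg _))
  exact Real.rpow_le_rpow_of_exponent_le (by norm_num) (by linarith)

end Pool.Agent.KQL
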