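import Pool.Agent.KQL.WordDef
import Pool.Agent.KNL.Word

/-! The language on the words with given parameters. (Adapt `Pool/Agent/KNL/Word.lean`; `bit_ofFn` and
`run_eq` can be reused from there.) -/

namespace Pool.Agent.KQL

open Pool.Agent.SemRO Pool.Agent.KNL

variable {N w K s n m : ℕ} {α E C X Sg : ℕ → ℕ → Bool}

lemma wd_one {p : ℕ} (h : p < w) : wd w K s n m α E C X Sg p = true := by
  unfold wd; rw [if_pos h]

lemma wd_zero : wd w K s n m α E C X Sg w = false := by
  unfold wd; rw [if_neg (by omega), if_pos rfl]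

lemma wd_one1 {p : ℕ} (h0 : w < p) (h : p < w + 1 + K) : wd w K s n m α E C X Sg p = true := by
  unfold wd; rw [if_neg (by omega), if_neg (by omega), if_pos h]

lemma wd_zero1 : wd w K s n m α E C X Sg (w + 1 + K) = false := by
  unfold wd; rw [if_neg (by omega), if_neg (by omega), if_neg (by omega), if_pos rfl]

lemma wd_one2 {p : ℕ} (h0 : w + 1 + K < p) (h : p < w + K + 2 + s) :
    wd w K s n m α E C X Sg p = true := by
  unfold wd
  rw [if_neg (by omega), if_neg (by omega), if_neg (by omega), if_neg (by omega), if_pos h]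

lemma wd_zero2 : wd w K s n m α E C X Sg (w + K + 2 + s) = false := by
  unfold wd
  rw [if_neg (by omega), if_neg (by omega), if_neg (by omega), if_neg (by omega),
    if_neg (by omega), if_pos rfl]

lemma wd_alpha {q i : ℕ} (hq : q < w) (hi : i < 2 * n) :
    wd w K s n m α E C X Sg (w + K + s + 3 + q * (2 * n) + i) = α q i := by
  have h1 : q * (2 * n) + i < w * (2 * n) := by
    have : (q + 1) * (2 * n) ≤ w * (2 * n) := Nat.mul_le_mul_right _ hq
    nlinarith
  have e : w + K + s + 3 + q * (2 * n) + i - (w + K + s + 3) = i + q * (2 * n) := by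
    omega
  unfold wd
  rw [if_neg (by omega), if_neg (by omega), if_neg (by omega), if_neg (by omega),
    if_neg (by omega), if_neg (by omega), e, if_pos (by omega),
    Nat.add_mul_div_right _ _ (by omega), Nat.div_eq_of_lt hi, zero_add,
    Nat.add_mul_mod_self_right, Nat.mod_eq_of_lt hi]

lemma wd_E {e q : ℕ} (he : e < K) (hq : q < w) :
    wd w K s n m α E C X Sg (w + K + s + 3 + w * (2 * n) + e * w + q) = E e q := by
  have h1 : e * w + q < K * w := by
    have : (e + 1) * w ≤ K * w := Nat.mul_le_mul_right _ he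
    nlinarith
  have e0 : w + K + s + 3 + w * (2 * n) + e * w + q - (w + K + s + 3) =
      w * (2 * n) + (q + e * w) := by omega
  have e1 : w * (2 * n) + (q + e * w) - w * (2 * n) = q + e * w := by omega
  unfold wd
  rw [if_neg (by omega), if_neg (by omega), if_neg (by omega), if_neg (by omega),
    if_neg (by omega), if_neg (by omega), e0, if_neg (by omega), e1, if_pos (by omega),
    Nat.add_mul_div_right _ _ (by omega), Nat.div_eq_of_lt hq, zero_add,
    Nat.add_mul_mod_self_right, Nat.mod_eq_of_lt hq]

lemma wd_C {j e : ℕ} (hj : j < m) (he : e < K) :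
    wd w K s n m α E C X Sg (w + K + s + 3 + w * (2 * n) + K * w + j * K + e) = C j e := by
  have h1 : j * K + e < m * K := by
    have : (j + 1) * K ≤ m * K := Nat.mul_le_mul_right _ hj
    nlinarith
  have e0 : w + K + s + 3 + w * (2 * n) + K * w + j * K + e - (w + K + s + 3) =
      w * (2 * n) + (K * w + (e + j * K)) := by omega
  have e1 : w * (2 * n) + (K * w + (e + j * K)) - w * (2 * n) = K * w + (e + j * K) := by omega
  have e2 : K * w + (e + j * K) - K * w = e + j * K := by omega
  unfold wd
  rw [if_neg (by omega), if_neg (by omega), if_neg (by omega), if_neg (by omega),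
    if_neg (by omega), if_neg (by omega), e0, if_neg (by omega), e1, if_neg (by omega), e2,
    if_pos (by omega),
    Nat.add_mul_div_right _ _ (by omega), Nat.div_eq_of_lt he, zero_add,
    Nat.add_mul_mod_self_right, Nat.mod_eq_of_lt he]

/-- the bits of the blocks -/
lemma wd_blk {b i : ℕ} (hb : b < 2 * K * w) (hi : i < n + m) :
    wd w K s n m α E C X Sg (w + K + s + 3 + w * (2 * n) + K * w + m * K + b * (n + m) + i) =
      if i < n then X b i else Sg b (i - n) := by
  have h1 : b * (n + m) + i < 2 * K * w * (n + m) := by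
    have : (b + 1) * (n + m) ≤ 2 * K * w * (n + m) := Nat.mul_le_mul_right _ hb
    nlinarith
  generalize hT : 2 * K * w = T at h1
  have e0 : w + K + s + 3 + w * (2 * n) + K * w + m * K + b * (n + m) + i - (w + K + s + 3) =
      w * (2 * n) + (K * w + (m * K + (i + b * (n + m)))) := by omega
  have e1 : w * (2 * n) + (K * w + (m * K + (i + b * (n + m)))) - w * (2 * n) =
      K * w + (m * K + (i + b * (n + m))) := by omega
  have e2 : K * w + (m * K + (i + b * (n + m))) - K * w = m * K + (i + b * (n + m)) := by omega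
  have e3 : m * K + (i + b * (n + m)) - m * K = i + b * (n + m) := by omega
  unfold wd
  rw [if_neg (by omega), if_neg (by omega), if_neg (by omega), if_neg (by omega),
    if_neg (by omega), if_neg (by omega), e0, if_neg (by omega), e1, if_neg (by omega), e2,
    if_neg (by omega), e3, hT, if_pos (by omega),
    Nat.add_mul_div_right _ _ (by omega), Nat.div_eq_of_lt hi, zero_add,
    Nat.add_mul_mod_self_right, Nat.mod_eq_of_lt hi]

/-- two families that agree on the blocks give the same word -/
lemma wd_congr {X' Sg' : ℕ → ℕ → Bool} {p : ℕ}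
    (h1 : ∀ b i, b < 2 * K * w → i < n →
      p = w + K + s + 3 + w * (2 * n) + K * w + m * K + b * (n + m) + i → X b i = X' b i)
    (h2 : ∀ b j, b < 2 * K * w → j < m → Sg b j = Sg' b j) :
    wd w K s n m α E C X Sg p = wd w K s n m α E C X' Sg' p := by
  unfold wd
  by_cases a1 : p < w
  · rw [if_pos a1, if_pos a1]
  rw [if_neg a1, if_neg a1]
  by_cases a2 : p = w
  · rw [if_pos a2, if_pos a2]
  rw [if_neg a2, if_neg a2]
  by_cases a3 : p < w + 1 + K
  · rw [if_pos a3, if_pos a3]
  rw [if_neg a3, if_neg a3]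
  by_cases a4 : p = w + 1 + K
  · rw [if_pos a4, if_pos a4]
  rw [if_neg a4, if_neg a4]
  by_cases a5 : p < w + K + 2 + s
  · rw [if_pos a5, if_pos a5]
  rw [if_neg a5, if_neg a5]
  by_cases a6 : p = w + K + 2 + s
  · rw [if_pos a6, if_pos a6]
  rw [if_neg a6, if_neg a6]
  by_cases a7 : p - (w + K + s + 3) < w * (2 * n)
  · rw [if_pos a7, if_pos a7]
  rw [if_neg a7, if_neg a7]
  by_cases a8 : p - (w + K + s + 3) - w * (2 * n) < K * w
  · rw [if_pos a8, if_pos a8]
  rw [if_neg a8, if_neg a8]
  by_cases a9 : p - (w + K + s + 3) - w * (2 * n) - K * w < m * K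
  · rw [if_pos a9, if_pos a9]
  rw [if_neg a9, if_neg a9]
  by_cases a10 : p - (w + K + s + 3) - w * (2 * n) - K * w - m * K < 2 * K * w * (n + m)
  swap
  · rw [if_neg a10, if_neg a10]
  rw [if_pos a10, if_pos a10]
  have hpos : 0 < n + m := by
    rcases Nat.eq_zero_or_pos (n + m) with h | h
    · rw [h] at a10; simp at a10
    · exact h
  by_cases a11 : (p - (w + K + s + 3) - w * (2 * n) - K * w - m * K) % (n + m) < n
  · rw [if_pos a11, if_pos a11]
    refine h1 _ _ ?_ a11 ?_
    · exact (Nat.div_lt_iff_lt_mul hpos).mpr a10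
    · have h3 := Nat.div_add_mod (p - (w + K + s + 3) - w * (2 * n) - K * w - m * K) (n + m)
      rw [mul_comm (n + m)] at h3
      omega
  · rw [if_neg a11, if_neg a11]
    refine h2 _ _ ?_ ?_
    · exact (Nat.div_lt_iff_lt_mul hpos).mpr a10
    · have := Nat.mod_lt (p - (w + K + s + 3) - w * (2 * n) - K * w - m * K) hpos
      omega

lemma wl_length : (wl N w K s n m α E C X Sg).length = N := by simp [wl]

lemma wl_pW (hN : w + K + s + 3 ≤ N) : pW (wl N w K s n m α E C X Sg) = w := by
  apply run_eq
  · rw [wl_length]; omega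
  · intro i hi
    rw [zero_add]
    unfold wl
    rw [bit_ofFn _ (by omega), wd_one hi]; rfl
  · rw [zero_add]
    unfold wl
    rw [bit_ofFn _ (by omega), wd_zero]; rfl

lemma wl_pK (hN : w + K + s + 3 ≤ N) : pK (wl N w K s n m α E C X Sg) = K := by
  unfold pK
  rw [wl_pW hN]
  apply run_eq
  · rw [wl_length]; omega
  · intro i hi
    unfold wl
    rw [bit_ofFn _ (by omega), wd_one1 (by omega) (by omega)]; rfl
  · unfold wl
    rw [bit_ofFn _ (by omega), wd_zero1]; rfl

lemma wl_pS (hN : w + K + s + 3 ≤ N) : pS (wl N w K s n m α E C X Sg) = s := by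
  unfold pS
  rw [wl_pW hN, wl_pK hN]
  apply run_eq
  · rw [wl_length]; omega
  · intro i hi
    unfold wl
    rw [bit_ofFn _ (by omega), wd_one2 (by omega) (by omega)]; rfl
  · unfold wl
    rw [bit_ofFn _ (by omega), wd_zero2]; rfl

lemma wl_pn (hN : w + K + s + 3 ≤ N) :
    pn (wl N w K s n m α E C X Sg) = (N - (w + K + s + 3)) / (8 * K * w) := by
  unfold pn off0
  rw [wl_length, wl_pW hN, wl_pK hN, wl_pS hN]

theorem lang_wl (hs : 1 ≤ s) (hw : 1 ≤ w) (hK : 1 ≤ K) (hN : w + K + s + 3 ≤ N)
    (hn : n = (N - (w + K + s + 3)) / (8 * K * w)) (hn1 : 1 ≤ n) (hm : m = n / s) :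
    Pool.Agent.KQL.Lang (wl N w K s n m α E C X Sg) ↔
      ∀ b < 2 * K * w, ∀ j < m, hv w K n α E C j (X b) = (Sg b j).toNat := by
  have eW := wl_pW (α := α) (E := E) (C := C) (X := X) (Sg := Sg) (n := n) (m := m) hN
  have eK := wl_pK (α := α) (E := E) (C := C) (X := X) (Sg := Sg) (n := n) (m := m) hN
  have eS := wl_pS (α := α) (E := E) (C := C) (X := X) (Sg := Sg) (n := n) (m := m) hN
  have en := wl_pn (α := α) (E := E) (C := C) (X := X) (Sg := Sg) (n := n) (m := m) hN
  rw [← hn] at en
  have em : pm (wl N w K s n m α E C X Sg) = m := by unfold pm; rw [en, eS, hm]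
  have eo : off0 (wl N w K s n m α E C X Sg) = w + K + s + 3 := by
    unfold off0; rw [eW, eK, eS]
  have hmn : m ≤ n := by rw [hm]; exact Nat.div_le_self _ _
  -- all positions are inside the word
  have hlen : w + K + s + 3 + 8 * K * w * n ≤ N := by
    have h1 : n * (8 * K * w) ≤ N - (w + K + s + 3) := by rw [hn]; exact Nat.div_mul_le_self _ _
    have h2 : 8 * K * w * n = n * (8 * K * w) := by ring
    omega
  have hKw : w * (2 * n) + K * w + m * K + 2 * K * w * (n + m) ≤ 8 * K * w * n := by
    have h1 : w * n ≤ K * (w * n) := Nat.le_mul_of_pos_left _ hK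
    have h2 : K * w ≤ K * w * n := Nat.le_mul_of_pos_right _ hn1
    have h3 : m * K ≤ n * K := Nat.mul_le_mul_right _ hmn
    have h4 : n * K ≤ w * (n * K) := Nat.le_mul_of_pos_left _ hw
    have h5 : K * w * m ≤ K * w * n := Nat.mul_le_mul_left _ hmn
    nlinarith
  have hpA : ∀ q i, q < w → i < 2 * n → bit (wl N w K s n m α E C X Sg)
      (posA (wl N w K s n m α E C X Sg) q i) = (α q i).toNat := by
    intro q i hq hi
    unfold posA
    rw [eo, en]
    have h1 : q * (2 * n) + i < w * (2 * n) := by
      have : (q + 1) * (2 * n) ≤ w * (2 * n) := Nat.mul_le_mul_right _ hq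
      nlinarith
    unfold wl
    rw [bit_ofFn _ (by omega), wd_alpha hq hi]
  have hpE : ∀ e q, e < K → q < w → bit (wl N w K s n m α E C X Sg)
      (posE (wl N w K s n m α E C X Sg) e q) = (E e q).toNat := by
    intro e q he hq
    unfold posE
    rw [eo, en, eW]
    have h1 : e * w + q < K * w := by
      have : (e + 1) * w ≤ K * w := Nat.mul_le_mul_right _ he
      nlinarith
    unfold wl
    rw [bit_ofFn _ (by omega), wd_E he hq]
  have hpC : ∀ j e, j < m → e < K → bit (wl N w K s n m α E C X Sg)
      (posC (wl N w K s n m α E C X Sg) j e) = (C j e).toNat := by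
    intro j e hj he
    unfold posC
    rw [eo, en, eW, eK]
    have h1 : j * K + e < m * K := by
      have : (j + 1) * K ≤ m * K := Nat.mul_le_mul_right _ hj
      nlinarith
    unfold wl
    rw [bit_ofFn _ (by omega), wd_C hj he]
  have hblk : ∀ b i, b < 2 * K * w → i < n + m → bit (wl N w K s n m α E C X Sg)
      (posX (wl N w K s n m α E C X Sg) b i) = (if i < n then X b i else Sg b (i - n)).toNat := by
    intro b i hb hi
    unfold posX
    rw [eo, en, eW, eK, em]
    have h1 : b * (n + m) + i < 2 * K * w * (n + m) := by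
      have : (b + 1) * (n + m) ≤ 2 * K * w * (n + m) := Nat.mul_le_mul_right _ hb
      nlinarith
    unfold wl
    rw [bit_ofFn _ (by omega), wd_blk hb hi]
  have hpar : ∀ b j q, b < 2 * K * w → j < m → q < w →
      par (wl N w K s n m α E C X Sg) b j q = hpr n α j q (X b) := by
    intro b j q hb hj hq
    unfold par hpr
    rw [en]
    congr 1
    refine Finset.sum_congr rfl fun i hi => ?_
    rw [Finset.mem_range] at hi
    rw [hpA q (i + j) hq (by omega), hblk b i hb (by omega), if_pos hi]
  have tn : ∀ c : Bool, c.toNat = 1 ↔ c = true := by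
    intro c
    cases c <;> simp
  have hval : ∀ b j, b < 2 * K * w → j < m →
      val (wl N w K s n m α E C X Sg) b j = hv w K n α E C j (X b) := by
    intro b j hb hj
    unfold val hv
    rw [eK, eW]
    congr 2
    refine Finset.filter_congr fun e he => ?_
    rw [Finset.mem_range] at he
    rw [hpC j e hj he, tn]
    refine and_congr_right fun _ => forall_congr' fun q => ?_
    refine forall_congr' fun hq => ?_
    rw [hpE e q he hq, tn, hpar b j q hb hj hq]
  unfold Pool.Agent.KQL.Lang
  rw [eK, eW, em]
  refine forall_congr' fun b => forall_congr' fun hb => forall_congr' fun j =>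
    forall_congr' fun hj => ?_
  rw [hval b j hb hj]
  unfold posS
  rw [en, hblk b (n + j) hb (by omega), if_neg (by omega), show n + j - n = j by omega]

end Pool.Agent.KQL
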