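import Pool.Agent.KQL.LangDefs
import Pool.Agent.KQL.HashDef

/-! The words with given parameters. -/

namespace Pool.Agent.KQL

open Pool.Agent.SemRO Pool.Agent.KNL

/-- the word (as a function on positions) with parameters `w`, `K`, `s`, `n`, `m`, strings `α q`,
monomials `E e`, coefficients `C j`, vectors `X b` and prescribed values `Sg b` -/
def wd (w K s n m : ℕ) (α E C X Sg : ℕ → ℕ → Bool) (p : ℕ) : Bool :=
  if p < w then true else if p = w then false else
  if p < w + 1 + K then true else if p = w + 1 + K then false else
  if p < w + K + 2 + s then true else if p = w + K + 2 + s then false else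
  if p - (w + K + s + 3) < w * (2 * n) then
    α ((p - (w + K + s + 3)) / (2 * n)) ((p - (w + K + s + 3)) % (2 * n))
  else if p - (w + K + s + 3) - w * (2 * n) < K * w then
    E ((p - (w + K + s + 3) - w * (2 * n)) / w) ((p - (w + K + s + 3) - w * (2 * n)) % w)
  else if p - (w + K + s + 3) - w * (2 * n) - K * w < m * K then
    C ((p - (w + K + s + 3) - w * (2 * n) - K * w) / K)
      ((p - (w + K + s + 3) - w * (2 * n) - K * w) % K)
  else if p - (w + K + s + 3) - w * (2 * n) - K * w - m * K < 2 * K * w * (n + m) then
    if (p - (w + K + s + 3) - w * (2 * n) - K * w - m * K) % (n + m) < n then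
      X ((p - (w + K + s + 3) - w * (2 * n) - K * w - m * K) / (n + m))
        ((p - (w + K + s + 3) - w * (2 * n) - K * w - m * K) % (n + m))
    else Sg ((p - (w + K + s + 3) - w * (2 * n) - K * w - m * K) / (n + m))
        ((p - (w + K + s + 3) - w * (2 * n) - K * w - m * K) % (n + m) - n)
  else false

/-- the word as a list -/
def wl (N w K s n m : ℕ) (α E C X Sg : ℕ → ℕ → Bool) : List Bool :=
  List.ofFn (fun i : Fin N => wd w K s n m α E C X Sg i)

end Pool.Agent.KQL
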